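import Pool.Agent.Lib.MP_f973c6_al.IfX.Clus

/-! The descent (7c). -/

namespace Pool.Agent.FPX

open Finset

namespace Sys
variable {N : ℕ} {Y : Type*} {A : Sys N Y} {r : (Fin N → ℤ) → ℝ}
  {Cb : (Fin N → ℤ) → Finset (Fin N)} {kp : (Fin N → ℤ) → (Fin N → ℤ)}

/-- descent below one bound -/
theorem descent_aux {ρs : ℝ} {q m : ℕ} (hq : q ≤ m)
    (hC : ∀ ρ, ρs < ρ → A.Crit r ρ Cb kp)
    (halt : ∀ ρ, ρs < ρ → ∀ κ, A.Top r ρ kp κ → A.Alt m κ (Cb κ))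
    (R1 : ℝ) (T0 : Finset ℝ) (hT0 : ∀ k, (A.ok k).Nonempty → r k ≤ R1 → r k ∈ T0) :
    ∀ n : ℕ, ∀ R, R ≤ R1 → (T0.filter (fun x => ρs < x ∧ x < R)).card ≤ n →
      ∀ y ∈ A.V q (fun t => r t < R),
      A.d y ∈ Finsupp.supported ℤ ℤ {c : Cl N Y | c.2.2 ∈ A.ok c.1 ∧ r (c.1 + es c.2.1) ≤ ρs} →
      ∃ x ∈ A.V (q + 1) (fun _ => True), y - A.d x ∈ A.V q (fun t => r t ≤ ρs) := by
  classical
  intro n
  induction n with
  | zero =>
    intro R hR hcard y hy hdy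
    refine ⟨0, Submodule.zero_mem _, ?_⟩
    rw [map_zero, sub_zero]
    refine Finsupp.supported_mono ?_ hy
    rintro c ⟨h1, h2, h3⟩
    refine ⟨h1, h2, ?_⟩
    by_contra h4
    have h5 : T0.filter (fun x => ρs < x ∧ x < R) = ∅ := by
      rw [← Finset.card_eq_zero]; omega
    have h6 : r (c.1 + es c.2.1) ∈ T0.filter (fun x => ρs < x ∧ x < R) :=
      mem_filter.2 ⟨hT0 _ (ok_top h1) (h3.le.trans hR), not_le.1 h4, h3⟩
    rw [h5] at h6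
    exact absurd h6 (notMem_empty _)
  | succ n ih =>
    intro R hR hcard y hy hdy
    rcases (T0.filter (fun x => ρs < x ∧ x < R)).eq_empty_or_nonempty with h0 | hne
    · exact ih R hR (by rw [h0, card_empty]; omega) y hy hdy
    · set ρ := (T0.filter (fun x => ρs < x ∧ x < R)).max' hne with hρ
      have hmem := Finset.max'_mem _ hne
      rw [← hρ] at hmem
      obtain ⟨hm1, hm2, hm3⟩ := mem_filter.1 hmem
      have hy' : y ∈ A.V q (fun t => r t ≤ ρ) := by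
        refine Finsupp.supported_mono ?_ hy
        rintro c ⟨h1, h2, h3⟩
        refine ⟨h1, h2, ?_⟩
        by_cases h4 : r (c.1 + es c.2.1) ≤ ρs
        · exact h4.trans hm2.le
        · exact Finset.le_max' _ _ (mem_filter.2 ⟨hT0 _ (ok_top h1) (h3.le.trans hR),
            not_le.1 h4, h3⟩)
      obtain ⟨x, hx, hyx⟩ := sevenB (hC ρ hm2) hq (halt ρ hm2) y hy' (by
        refine Finsupp.supported_mono ?_ hdy
        rintro c ⟨h1, h2⟩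
        exact ⟨h1, lt_of_le_of_lt h2 hm2⟩)
      have hcard' : (T0.filter (fun x => ρs < x ∧ x < ρ)).card ≤ n := by
        have h1 : T0.filter (fun x => ρs < x ∧ x < ρ) ⊆
            (T0.filter (fun x => ρs < x ∧ x < R)).erase ρ := by
          intro x hx
          obtain ⟨h2, h3, h4⟩ := mem_filter.1 hx
          exact mem_erase.2 ⟨h4.ne, mem_filter.2 ⟨h2, h3, h4.trans hm3⟩⟩
        have h2 := card_le_card h1
        rw [card_erase_of_mem hmem] at h2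
        omega
      have hdx : A.d (A.d x) = 0 := A.d_d _ _ x hx
      obtain ⟨x', hx', hyx'⟩ := ih ρ (hm3.le.trans hR) hcard' (y - A.d x) hyx (by
        rw [map_sub, hdx, sub_zero]; exact hdy)
      refine ⟨x + x', Submodule.add_mem _ ?_ hx', ?_⟩
      · refine Finsupp.supported_mono ?_ hx
        rintro c ⟨h1, h2, -⟩
        exact ⟨h1, h2, trivial⟩
      · rw [map_add, ← sub_sub]
        exact hyx'

/-- **descent** -/
theorem descent {ρs : ℝ} {q m : ℕ} (hq : q ≤ m)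
    (hC : ∀ ρ, ρs < ρ → A.Crit r ρ Cb kp)
    (halt : ∀ ρ, ρs < ρ → ∀ κ, A.Top r ρ kp κ → A.Alt m κ (Cb κ))
    (hval : ∀ R1 : ℝ, {x : ℝ | ∃ k, (A.ok k).Nonempty ∧ r k = x ∧ x ≤ R1}.Finite)
    (y : Cl N Y →₀ ℤ) (hy : y ∈ A.V q (fun _ => True))
    (hdy : A.d y ∈ Finsupp.supported ℤ ℤ
      {c : Cl N Y | c.2.2 ∈ A.ok c.1 ∧ r (c.1 + es c.2.1) ≤ ρs}) :
    ∃ y' ∈ A.V q (fun t => r t ≤ ρs), A.d y' = A.d y := by
  classical
  obtain ⟨R, hR⟩ : ∃ R : ℝ, y ∈ A.V q (fun t => r t < R) := by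
    have hy' : (↑y.support : Set (Cl N Y)) ⊆ A.cells q (fun _ => True) := hy
    refine ⟨y.support.sum (fun c => |r (c.1 + es c.2.1)|) + 1, ?_⟩
    intro c hc
    obtain ⟨h1, h2, -⟩ := hy' hc
    refine ⟨h1, h2, ?_⟩
    have h3 := Finset.single_le_sum (f := fun c : Cl N Y => |r (c.1 + es c.2.1)|)
      (fun c _ => abs_nonneg _) hc
    have h4 := le_abs_self (r (c.1 + es c.2.1))
    simp only at h3 ⊢
    linarith
  obtain ⟨x, hx, hyx⟩ := descent_aux hq hC halt R (hval R).toFinset (by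
      intro k hk hr
      rw [Set.Finite.mem_toFinset]
      exact ⟨k, hk, rfl, hr⟩) _ R le_rfl le_rfl y hR hdy
  refine ⟨y - A.d x, hyx, ?_⟩
  rw [map_sub, A.d_d _ _ x hx, sub_zero]

/-- **exactness at level `ρs`**, positive degrees -/
theorem exact_pos {ρs : ℝ} {q m : ℕ} (hq0 : 0 < q) (hq : q + 1 ≤ m)
    (hC : ∀ ρ, ρs < ρ → A.Crit r ρ Cb kp)
    (halt : ∀ ρ, ρs < ρ → ∀ κ, A.Top r ρ kp κ → A.Alt m κ (Cb κ))
    (hval : ∀ R1 : ℝ, {x : ℝ | ∃ k, (A.ok k).Nonempty ∧ r k = x ∧ x ≤ R1}.Finite)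
    (z : Cl N Y →₀ ℤ) (hz : z ∈ A.V q (fun t => r t ≤ ρs)) (hdz : A.d z = 0) :
    ∃ y ∈ A.V (q + 1) (fun t => r t ≤ ρs), A.d y = z := by
  obtain ⟨y, hy, hdy⟩ := A.acyclic q hq0 z (Finsupp.supported_mono (by
    rintro c ⟨h1, h2, -⟩; exact ⟨h1, h2, trivial⟩) hz) hdz
  obtain ⟨y', hy', hdy'⟩ := descent hq hC halt hval y hy (by
    rw [hdy]
    refine Finsupp.supported_mono ?_ hz
    rintro c ⟨h1, -, h3⟩
    exact ⟨h1, h3⟩)
  exact ⟨y', hy', hdy'.trans hdy⟩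

/-- **exactness at level `ρs`**, degree zero -/
theorem exact_zero {ρs : ℝ} {m : ℕ} (hm1 : 1 ≤ m)
    (hC : ∀ ρ, ρs < ρ → A.Crit r ρ Cb kp)
    (halt : ∀ ρ, ρs < ρ → ∀ κ, A.Top r ρ kp κ → A.Alt m κ (Cb κ))
    (hval : ∀ R1 : ℝ, {x : ℝ | ∃ k, (A.ok k).Nonempty ∧ r k = x ∧ x ≤ R1}.Finite)
    (hm : ∀ b b' x x', x ∈ A.ok b → x' ∈ A.ok b' → ∃ k, b ≤ k ∧ b' ≤ k ∧ A.up k x = A.up k x')
    (z : Cl N Y →₀ ℤ) (hz : z ∈ A.V 0 (fun t => r t ≤ ρs)) (hdz : aug z = 0) :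
    ∃ y ∈ A.V 1 (fun t => r t ≤ ρs), A.d y = z := by
  obtain ⟨y, hy, hdy⟩ := A.acyclic_zero hm z (Finsupp.supported_mono (by
    rintro c ⟨h1, h2, -⟩; exact ⟨h1, h2, trivial⟩) hz) hdz
  obtain ⟨y', hy', hdy'⟩ := descent hm1 hC halt hval y hy (by
    rw [hdy]
    refine Finsupp.supported_mono ?_ hz
    rintro c ⟨h1, -, h3⟩
    exact ⟨h1, h3⟩)
  exact ⟨y', hy', hdy'.trans hdy⟩

end Sys

end Pool.Agent.FPX
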