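import Mathlib

/-! Cubical complexes of systems of components over `ℤ^N` (part X of the IF half). -/

namespace Pool.Agent.FPX

open Finset

/-- cells: (base point, directions, component) -/
abbrev Cl (N : ℕ) (Y : Type*) := (Fin N → ℤ) × Finset (Fin N) × Y

/-- the unit vector -/
def ev {N : ℕ} (j : Fin N) : Fin N → ℤ := fun i => if i = j then 1 else 0

/-- the indicator vector of `S` -/
def es {N : ℕ} (S : Finset (Fin N)) : Fin N → ℤ := fun i => if i ∈ S then 1 else 0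

/-- the sign -/
def sgn {N : ℕ} (j : Fin N) (S : Finset (Fin N)) : ℤ := (-1) ^ (S.filter (· < j)).card

/-- A system of components: `ok b` is the set of components at the (fat) level `b` (empty if `b`
is not fat), `up k x` is the component at level `k` containing `x`. -/
structure Sys (N : ℕ) (Y : Type*) where
  ok : (Fin N → ℤ) → Set Y
  up : (Fin N → ℤ) → Y → Y
  up_ok : ∀ {b k x}, b ≤ k → x ∈ ok b → up k x ∈ ok k
  up_self : ∀ {b x}, x ∈ ok b → up b x = x
  up_up : ∀ {b k l x}, b ≤ k → k ≤ l → x ∈ ok b → up l (up k x) = up l x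

namespace Sys
variable {N : ℕ} {Y : Type*} (A : Sys N Y)

/-- the boundary of a cell -/
noncomputable def bd (c : Cl N Y) : Cl N Y →₀ ℤ :=
  ∑ j ∈ c.2.1, sgn j c.2.1 •
    (Finsupp.single (c.1 + ev j, c.2.1.erase j, A.up (c.1 + ev j) c.2.2) 1
      - Finsupp.single (c.1, c.2.1.erase j, c.2.2) 1)

/-- the boundary operator -/
noncomputable def d : (Cl N Y →₀ ℤ) →ₗ[ℤ] (Cl N Y →₀ ℤ) :=
  Finsupp.lift (Cl N Y →₀ ℤ) ℤ (Cl N Y) A.bd

/-- the cells of dimension `q` whose top vertex satisfies `P` -/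
def cells (q : ℕ) (P : (Fin N → ℤ) → Prop) : Set (Cl N Y) :=
  {c | c.2.2 ∈ A.ok c.1 ∧ c.2.1.card = q ∧ P (c.1 + es c.2.1)}

/-- the chains of degree `q` -/
noncomputable def V (q : ℕ) (P : (Fin N → ℤ) → Prop) : Submodule ℤ (Cl N Y →₀ ℤ) :=
  Finsupp.supported ℤ ℤ (A.cells q P)

end Sys

/-- the complex over a critical vertex: `F S` are the components at `κ - e_S`, `u T x` is the
component at `κ - e_T` containing `x`. -/
structure TSys {N : ℕ} (C : Finset (Fin N)) (Y : Type*) where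
  F : Finset (Fin N) → Set Y
  u : Finset (Fin N) → Y → Y
  u_mem : ∀ {T S x}, T ⊆ S → S ⊆ C → x ∈ F S → u T x ∈ F T
  u_self : ∀ {S x}, x ∈ F S → u S x = x
  u_u : ∀ {R T S x}, R ⊆ T → T ⊆ S → S ⊆ C → x ∈ F S → u R (u T x) = u R x

namespace TSys
variable {N : ℕ} {C : Finset (Fin N)} {Y : Type*} (A : TSys C Y)

noncomputable def bd (c : Finset (Fin N) × Y) : (Finset (Fin N) × Y) →₀ ℤ :=
  ∑ j ∈ c.1, sgn j c.1 • Finsupp.single (c.1.erase j, A.u (c.1.erase j) c.2) 1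

noncomputable def d : ((Finset (Fin N) × Y) →₀ ℤ) →ₗ[ℤ] ((Finset (Fin N) × Y) →₀ ℤ) :=
  Finsupp.lift ((Finset (Fin N) × Y) →₀ ℤ) ℤ (Finset (Fin N) × Y) A.bd

noncomputable def V (q : ℕ) : Submodule ℤ ((Finset (Fin N) × Y) →₀ ℤ) :=
  Finsupp.supported ℤ ℤ {c | c.1 ⊆ C ∧ c.1.card = q ∧ c.2 ∈ A.F c.1}

end TSys

end Pool.Agent.FPX
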