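import Pool.Agent.Lib.MP_f973c6_al.IfX.Rel

/-! The cluster homotopies over one critical vertex, and the relative exactness (7b). -/

namespace Pool.Agent.FPX

open Finset

namespace Sys
variable {N : ℕ} {Y : Type*}

/-- the data of one homotopy over the critical vertex `κ` with base `C` -/
structure HD (A : Sys N Y) (κ : Fin N → ℤ) (C cc : Finset (Fin N)) (j : Fin N)
    (σ : Finset (Fin N) → Y → Y) : Prop where
  sub : cc ⊆ C
  jm : j ∈ cc
  s1 : ∀ S ⊆ C, Disjoint S cc → ∀ x ∈ A.ok (κ - es S), σ S x ∈ A.ok (κ - es (insert j S))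
  s2 : ∀ S ⊆ C, Disjoint S cc → ∀ x ∈ A.ok (κ - es S), A.up (κ - es S) (σ S x) = x
  s3 : ∀ S ⊆ C, Disjoint S cc → ∀ x ∈ A.ok (κ - es S), ∀ i ∈ S,
    A.up (κ - es (insert j (S.erase i))) (σ S x) = σ (S.erase i) (A.up (κ - es (S.erase i)) x)

/-- the alternative over one critical vertex -/
def Alt (A : Sys N Y) (m : ℕ) (κ : Fin N → ℤ) (C : Finset (Fin N)) : Prop :=
  (∃ (j : Fin N) (σ : Finset (Fin N) → Y → Y), A.HD κ C {j} j σ ∧
    ∀ S ⊆ C, j ∈ S → ∀ x ∈ A.ok (κ - es S),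
      σ (S.erase j) (A.up (κ - es (S.erase j)) x) = x) ∨
  (∃ (cc : ℕ → Finset (Fin N)) (jj : ℕ → Fin N) (σ : ℕ → Finset (Fin N) → Y → Y),
    (∀ t, t ≤ m → A.HD κ C (cc t) (jj t) (σ t)) ∧
    ∀ t, t ≤ m → ∀ t', t' ≤ m → t ≠ t' → Disjoint (cc t) (cc t'))

variable {A : Sys N Y} {r : (Fin N → ℤ) → ℝ} {ρ : ℝ}
  {Cb : (Fin N → ℤ) → Finset (Fin N)} {kp : (Fin N → ℤ) → (Fin N → ℤ)}

/-- the cells over the critical vertices -/
def Tc (A : Sys N Y) (r : (Fin N → ℤ) → ℝ) (ρ : ℝ) (Cb : (Fin N → ℤ) → Finset (Fin N))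
    (kp : (Fin N → ℤ) → (Fin N → ℤ)) (q : ℕ) : Set (Cl N Y) :=
  {c | c ∈ A.cells q (fun t => r t = ρ) ∧ kp (c.1 + es c.2.1) = c.1 + es c.2.1 ∧
    c.2.1 ⊆ Cb (c.1 + es c.2.1)}

lemma Pc_univ (H : A.Crit r ρ Cb kp) (q : ℕ) :
    A.Pc r ρ Cb kp q Finset.univ ⊆ A.Tc r ρ Cb kp q := by
  rintro ⟨b, S, x⟩ ⟨⟨hx, hS, hρ⟩, hJ⟩
  simp only at hx hS hρ hJ
  have hk : (A.ok (b + es S)).Nonempty := ok_top (c := (b, S, x)) hx
  refine ⟨⟨hx, hS, hρ⟩, ?_, ?_⟩
  · simp only
    funext j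
    by_cases hj : j ∈ Cb (b + es S)
    · exact H.eq _ hk hρ j hj
    · exact (hJ j (mem_univ j) hj).2.symm
  · intro j hj
    simp only at hj ⊢
    by_contra h
    exact (hJ j (mem_univ j) h).1 hj

lemma sub_es_eq {b : Fin N → ℤ} {S : Finset (Fin N)} : b + es S - es S = b := by
  funext i; simp

lemma sub_es_erase {b : Fin N → ℤ} {S : Finset (Fin N)} {i : Fin N} (hi : i ∈ S) :
    b + es S - es (S.erase i) = b + ev i := by
  rw [← add_ev_add_es (b := b) hi]; exact sub_es_eq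

lemma sub_add_es {κ : Fin N → ℤ} {S : Finset (Fin N)} : κ - es S + es S = κ := by
  funext i; simp

/-- the boundary of a cell over a critical vertex, modulo lower cells -/
lemma dT (H : A.Crit r ρ Cb kp) {κ : Fin N → ℤ} {S : Finset (Fin N)} {x : Y}
    (hx : x ∈ A.ok (κ - es S)) (hρ : r κ = ρ) (hκ : kp κ = κ) (hS : S ⊆ Cb κ) :
    A.d (Finsupp.single (κ - es S, S, x) 1) - ∑ i ∈ S, sgn i S •
      Finsupp.single (κ - es (S.erase i), S.erase i, A.up (κ - es (S.erase i)) x) (1 : ℤ)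
      ∈ A.Low r ρ := by
  rw [A.d_single, bd]
  simp only
  rw [← Finset.sum_sub_distrib]
  apply Submodule.sum_mem
  intro i hi
  have hk : (A.ok κ).Nonempty := by
    have := ok_top (A := A) (c := (κ - es S, S, x)) hx
    simpa only [sub_add_es] using this
  have e1 : κ - es S + ev i = κ - es (S.erase i) := by
    have := sub_es_erase (b := κ - es S) hi
    rw [sub_add_es] at this
    exact this.symm
  rw [e1, smul_sub, sub_sub_cancel_left]
  apply Submodule.neg_mem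
  apply Submodule.smul_mem
  apply single_low
  refine ⟨hx, ?_⟩
  simp only
  have hle : κ - es S + es (S.erase i) ≤ κ := by
    have := add_es_erase_le (κ - es S) S i
    rw [sub_add_es] at this
    exact this
  refine H.r_lt hk hρ (by rw [hκ]; exact hle) (hS hi) ?_
  simp only [Pi.add_apply, Pi.sub_apply, es, mem_erase, ne_eq, not_true, false_and, if_false, hi,
    if_true]
  omega

open Classical in
/-- the value of the global cluster homotopy -/
noncomputable def ccell (A : Sys N Y) (r : (Fin N → ℤ) → ℝ) (ρ : ℝ)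
    (Cb : (Fin N → ℤ) → Finset (Fin N)) (kp : (Fin N → ℤ) → (Fin N → ℤ))
    (cc : (Fin N → ℤ) → Finset (Fin N)) (jj : (Fin N → ℤ) → Fin N)
    (σ : (Fin N → ℤ) → Finset (Fin N) → Y → Y) (c : Cl N Y) : Cl N Y →₀ ℤ :=
  if c.2.2 ∈ A.ok c.1 ∧ r (c.1 + es c.2.1) = ρ ∧ kp (c.1 + es c.2.1) = c.1 + es c.2.1 ∧
      c.2.1 ⊆ Cb (c.1 + es c.2.1) ∧ Disjoint c.2.1 (cc (c.1 + es c.2.1)) then
    sgn (jj (c.1 + es c.2.1)) c.2.1 •
      Finsupp.single (c.1 + es c.2.1 - es (insert (jj (c.1 + es c.2.1)) c.2.1),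
        insert (jj (c.1 + es c.2.1)) c.2.1, σ (c.1 + es c.2.1) c.2.1 c.2.2) 1
  else 0

variable {cc : (Fin N → ℤ) → Finset (Fin N)} {jj : (Fin N → ℤ) → Fin N}
    {σ : (Fin N → ℤ) → Finset (Fin N) → Y → Y}

lemma ccell_pos {κ : Fin N → ℤ} {S : Finset (Fin N)} {x : Y}
    (hx : x ∈ A.ok (κ - es S)) (hρ : r κ = ρ) (hκ : kp κ = κ) (hS : S ⊆ Cb κ)
    (hd : Disjoint S (cc κ)) :
    A.ccell r ρ Cb kp cc jj σ (κ - es S, S, x) = sgn (jj κ) S •
      Finsupp.single (κ - es (insert (jj κ) S), insert (jj κ) S, σ κ S x) 1 := by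
  rw [ccell, if_pos]
  · simp only [sub_add_es]
  · simp only [sub_add_es]
    exact ⟨hx, hρ, hκ, hS, hd⟩

lemma ccell_neg {κ : Fin N → ℤ} {S : Finset (Fin N)} {x : Y}
    (hd : ¬ Disjoint S (cc κ)) :
    A.ccell r ρ Cb kp cc jj σ (κ - es S, S, x) = 0 := by
  rw [ccell, if_neg]
  intro h
  simp only [sub_add_es] at h
  exact hd h.2.2.2.2

/-- the vertices over which the cells of level `ρ` live -/
def Top (A : Sys N Y) (r : (Fin N → ℤ) → ℝ) (ρ : ℝ) (kp : (Fin N → ℤ) → (Fin N → ℤ))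
    (κ : Fin N → ℤ) : Prop := (A.ok κ).Nonempty ∧ r κ = ρ ∧ kp κ = κ

/-- low chains are killed -/
lemma ccell_low (y : Cl N Y →₀ ℤ) (hy : y ∈ A.Low r ρ) :
    lin (A.ccell r ρ Cb kp cc jj σ) y = 0 := by
  have := lin_mem (lin (A.ccell r ρ Cb kp cc jj σ)) ⊥ _ (fun c hc => by
    rw [Submodule.mem_bot, lin_one, ccell, if_neg]
    rintro ⟨-, h3, -⟩
    exact hc.2.ne h3) y hy
  exact (Submodule.mem_bot ℤ).1 this

/-- the homotopy of the boundary -/
lemma ccell_d (H : A.Crit r ρ Cb kp) {κ : Fin N → ℤ} {S : Finset (Fin N)} {x : Y}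
    (hx : x ∈ A.ok (κ - es S)) (hρ : r κ = ρ) (hκ : kp κ = κ) (hS : S ⊆ Cb κ) :
    lin (A.ccell r ρ Cb kp cc jj σ) (A.d (Finsupp.single (κ - es S, S, x) 1))
      = ∑ i ∈ S, sgn i S • A.ccell r ρ Cb kp cc jj σ
        (κ - es (S.erase i), S.erase i, A.up (κ - es (S.erase i)) x) := by
  have h1 := ccell_low (Cb := Cb) (kp := kp) (cc := cc) (jj := jj) (σ := σ) _
    (dT H hx hρ hκ hS)
  rw [map_sub, sub_eq_zero] at h1
  rw [h1, map_sum]
  refine Finset.sum_congr rfl fun i hi => ?_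
  rw [map_smul, lin_one]

lemma erase_le_es {κ : Fin N → ℤ} {S : Finset (Fin N)} (i : Fin N) :
    κ - es S ≤ κ - es (S.erase i) := by
  intro l
  simp only [Pi.sub_apply, es, mem_erase]
  by_cases h1 : l = i <;> by_cases h2 : l ∈ S <;> simp [h1, h2]
  all_goals (try split_ifs) <;> omega

/-- **the cluster homotopy on cells away from the cluster** -/
lemma cluster_disj (H : A.Crit r ρ Cb kp) {κ : Fin N → ℤ} {S : Finset (Fin N)} {x : Y}
    (D : A.HD κ (Cb κ) (cc κ) (jj κ) (σ κ))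
    (hx : x ∈ A.ok (κ - es S)) (hρ : r κ = ρ) (hκ : kp κ = κ) (hS : S ⊆ Cb κ)
    (hd : Disjoint S (cc κ)) :
    Finsupp.single (κ - es S, S, x) 1
      - A.d (lin (A.ccell r ρ Cb kp cc jj σ) (Finsupp.single (κ - es S, S, x) 1))
      - lin (A.ccell r ρ Cb kp cc jj σ) (A.d (Finsupp.single (κ - es S, S, x) 1)) ∈ A.Low r ρ := by
  classical
  set j := jj κ with hj
  have hjS : j ∉ S := fun h => (Finset.disjoint_left.1 hd h) D.jm
  have hjC : j ∈ Cb κ := D.sub D.jm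
  have hins : insert j S ⊆ Cb κ := insert_subset hjC hS
  have hσ := D.s1 S hS hd x hx
  rw [lin_one, ccell_pos hx hρ hκ hS hd, ccell_d H hx hρ hκ hS, map_smul, ← hj]
  have h1 := dT H hσ hρ hκ hins
  rw [Finset.sum_insert hjS, erase_insert hjS, D.s2 S hS hd x hx,
    sgn_insert_of_not_lt hjS (lt_irrefl j)] at h1
  have h2 := Submodule.neg_mem _ (Submodule.smul_mem _ (sgn j S) h1)
  convert h2 using 1
  rw [smul_sub, smul_add, smul_smul, sgn_sq, one_smul, Finset.smul_sum]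
  have h3 : ∑ i ∈ S, sgn j S • (sgn i (insert j S) • Finsupp.single
      (κ - es ((insert j S).erase i), (insert j S).erase i,
        A.up (κ - es ((insert j S).erase i)) (σ κ S x)) (1 : ℤ))
      = -∑ i ∈ S, sgn i S • A.ccell r ρ Cb kp cc jj σ
        (κ - es (S.erase i), S.erase i, A.up (κ - es (S.erase i)) x) := by
    rw [← Finset.sum_neg_distrib]
    refine Finset.sum_congr rfl fun i hi => ?_
    have hij : i ≠ j := fun h => hjS (h ▸ hi)
    have hdi : Disjoint (S.erase i) (cc κ) := hd.mono_left (erase_subset i S)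
    have hxi : A.up (κ - es (S.erase i)) x ∈ A.ok (κ - es (S.erase i)) :=
      A.up_ok (erase_le_es i) hx
    rw [ccell_pos hxi hρ hκ ((erase_subset i S).trans hS) hdi, ← hj, erase_insert_of_ne hij.symm,
      D.s3 S hS hd x hx i hi, smul_smul, smul_smul, sgn_swap' hi hjS, neg_smul]
  rw [h3]
  abel

/-- **the cluster homotopy on cells meeting the cluster** -/
lemma cluster_meet (H : A.Crit r ρ Cb kp) {κ : Fin N → ℤ} {S : Finset (Fin N)} {x : Y}
    (D : A.HD κ (Cb κ) (cc κ) (jj κ) (σ κ))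
    (hx : x ∈ A.ok (κ - es S)) (hρ : r κ = ρ) (hκ : kp κ = κ) (hS : S ⊆ Cb κ)
    (hd : ¬ Disjoint S (cc κ)) (W : Submodule ℤ (Cl N Y →₀ ℤ))
    (hW : ∀ S' ⊆ Cb κ, S'.card = S.card → ¬ Disjoint S' (cc κ) → S' \ cc κ = S \ cc κ →
      ∀ x' ∈ A.ok (κ - es S'), Finsupp.single (κ - es S', S', x') 1 ∈ W) :
    Finsupp.single (κ - es S, S, x) 1
      - A.d (lin (A.ccell r ρ Cb kp cc jj σ) (Finsupp.single (κ - es S, S, x) 1))
      - lin (A.ccell r ρ Cb kp cc jj σ) (A.d (Finsupp.single (κ - es S, S, x) 1)) ∈ W := by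
  classical
  rw [lin_one, ccell_neg hd, ccell_d H hx hρ hκ hS, map_zero, sub_zero]
  apply Submodule.sub_mem _ (hW S hS rfl hd rfl x hx)
  apply Submodule.sum_mem
  intro i hi
  apply Submodule.smul_mem
  by_cases hdi : Disjoint (S.erase i) (cc κ)
  · have hxi : A.up (κ - es (S.erase i)) x ∈ A.ok (κ - es (S.erase i)) :=
      A.up_ok (erase_le_es i) hx
    rw [ccell_pos hxi hρ hκ ((erase_subset i S).trans hS) hdi]
    apply Submodule.smul_mem
    have hjS : jj κ ∉ S.erase i := fun h => (Finset.disjoint_left.1 hdi h) D.jm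
    have hic : i ∈ cc κ := by
      by_contra hic
      apply hd
      rw [Finset.disjoint_left]
      intro l hl hl'
      by_cases hli : l = i
      · exact hic (hli ▸ hl')
      · exact (Finset.disjoint_left.1 hdi) (mem_erase.2 ⟨hli, hl⟩) hl'
    refine hW _ (insert_subset (D.sub D.jm) ((erase_subset i S).trans hS)) ?_ ?_ ?_ _
      (D.s1 _ ((erase_subset i S).trans hS) hdi _ hxi)
    · rw [card_insert_of_notMem hjS, card_erase_of_mem hi]
      have := card_pos.2 ⟨i, hi⟩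
      omega
    · rw [Finset.not_disjoint_iff]
      exact ⟨jj κ, mem_insert_self _ _, D.jm⟩
    · ext l
      simp only [mem_sdiff, mem_insert, mem_erase]
      constructor
      · rintro ⟨rfl | ⟨-, h⟩, h2⟩
        · exact absurd D.jm h2
        · exact ⟨h, h2⟩
      · rintro ⟨h, h2⟩
        refine ⟨Or.inr ⟨?_, h⟩, h2⟩
        rintro rfl
        exact h2 hic
  · rw [ccell_neg hdi]
    exact Submodule.zero_mem _

/-- **the inert homotopy** -/
lemma cluster_inert (H : A.Crit r ρ Cb kp) {κ : Fin N → ℤ} {S : Finset (Fin N)} {x : Y}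
    (D : A.HD κ (Cb κ) (cc κ) (jj κ) (σ κ)) (hc : cc κ = {jj κ})
    (s4 : ∀ S ⊆ Cb κ, jj κ ∈ S → ∀ x ∈ A.ok (κ - es S),
      σ κ (S.erase (jj κ)) (A.up (κ - es (S.erase (jj κ))) x) = x)
    (hx : x ∈ A.ok (κ - es S)) (hρ : r κ = ρ) (hκ : kp κ = κ) (hS : S ⊆ Cb κ) :
    Finsupp.single (κ - es S, S, x) 1
      - A.d (lin (A.ccell r ρ Cb kp cc jj σ) (Finsupp.single (κ - es S, S, x) 1))
      - lin (A.ccell r ρ Cb kp cc jj σ) (A.d (Finsupp.single (κ - es S, S, x) 1)) ∈ A.Low r ρ := by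
  classical
  by_cases hd : Disjoint S (cc κ)
  · exact cluster_disj H D hx hρ hκ hS hd
  · have hj : jj κ ∈ S := by
      rw [hc, Finset.disjoint_singleton_right, not_not] at hd
      exact hd
    rw [lin_one, ccell_neg hd, ccell_d H hx hρ hκ hS, map_zero, sub_zero,
      Finset.sum_eq_single_of_mem (jj κ) hj]
    · have hdi : Disjoint (S.erase (jj κ)) (cc κ) := by
        rw [hc, Finset.disjoint_singleton_right]
        exact notMem_erase _ _
      have hxi : A.up (κ - es (S.erase (jj κ))) x ∈ A.ok (κ - es (S.erase (jj κ))) :=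
        A.up_ok (erase_le_es _) hx
      rw [ccell_pos hxi hρ hκ ((erase_subset _ S).trans hS) hdi, insert_erase hj,
        s4 S hS hj x hx, sgn_erase_of_not_lt (lt_irrefl _), smul_smul, sgn_sq, one_smul, sub_self]
      exact Submodule.zero_mem _
    · intro i hi hij
      rw [ccell_neg, smul_zero]
      rw [hc, Finset.disjoint_singleton_right, not_not]
      exact mem_erase.2 ⟨hij.symm, hj⟩

/-- the cells which survive the first `t` steps -/
def Sc (A : Sys N Y) (r : (Fin N → ℤ) → ℝ) (ρ : ℝ) (Cb : (Fin N → ℤ) → Finset (Fin N))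
    (kp : (Fin N → ℤ) → (Fin N → ℤ)) (q : ℕ) (In : (Fin N → ℤ) → Prop)
    (cc : ℕ → (Fin N → ℤ) → Finset (Fin N)) (t : ℕ) : Set (Cl N Y) :=
  {c | c ∈ A.Tc r ρ Cb kp q ∧ (0 < t → ¬ In (c.1 + es c.2.1)) ∧
    ∀ t' < t, ¬ Disjoint c.2.1 (cc t' (c.1 + es c.2.1))}

/-- one cluster step -/
lemma Red.cluster (H : A.Crit r ρ Cb kp) {q m : ℕ} (In : (Fin N → ℤ) → Prop)
    (cc : ℕ → (Fin N → ℤ) → Finset (Fin N)) (jj : ℕ → (Fin N → ℤ) → Fin N)
    (σ : ℕ → (Fin N → ℤ) → Finset (Fin N) → Y → Y)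
    (hD : ∀ t, t ≤ m → ∀ κ, A.Top r ρ kp κ → A.HD κ (Cb κ) (cc t κ) (jj t κ) (σ t κ))
    (hdis : ∀ κ, A.Top r ρ kp κ → ¬ In κ →
      ∀ t, t ≤ m → ∀ t', t' ≤ m → t ≠ t' → Disjoint (cc t κ) (cc t' κ))
    (hin : ∀ κ, A.Top r ρ kp κ → In κ → cc 0 κ = {jj 0 κ} ∧
      ∀ S ⊆ Cb κ, jj 0 κ ∈ S → ∀ x ∈ A.ok (κ - es S),
        σ 0 κ (S.erase (jj 0 κ)) (A.up (κ - es (S.erase (jj 0 κ))) x) = x)
    (t : ℕ) (ht : t ≤ m) (h : A.Red r ρ q (A.Sc r ρ Cb kp q In cc (t + 1))) :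
    A.Red r ρ q (A.Sc r ρ Cb kp q In cc t) := by
  classical
  refine h.step H.mono (lin (A.ccell r ρ Cb kp (cc t) (jj t) (σ t))) ?_ ?_ ?_
  · intro c hc
    exact ccell_low _ (single_low hc)
  · rintro ⟨b, S, x⟩ ⟨⟨⟨hx, hSc, hρ⟩, hκ, hS⟩, -, -⟩
    simp only at hx hSc hρ hκ hS
    set κ := b + es S with hκdef
    have hb : b = κ - es S := by rw [hκdef, sub_es_eq]
    have hk : (A.ok κ).Nonempty := ok_top (c := (b, S, x)) hx
    rw [hb] at hx ⊢
    have D := hD t ht κ ⟨hk, hρ, hκ⟩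
    rw [lin_one]
    by_cases hd : Disjoint S (cc t κ)
    · rw [ccell_pos hx hρ hκ hS hd]
      apply Submodule.smul_mem
      apply A.single_mem
      have hjS : jj t κ ∉ S := fun h => (Finset.disjoint_left.1 hd h) D.jm
      refine ⟨D.s1 S hS hd x hx, ?_, ?_⟩
      · simp only; rw [card_insert_of_notMem hjS, hSc]
      · simp only; rw [sub_add_es, hρ]
    · rw [ccell_neg hd]
      exact Submodule.zero_mem _
  · rintro ⟨b, S, x⟩ ⟨⟨⟨hx, hSc, hρ⟩, hκ, hS⟩, hI, hM⟩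
    simp only at hx hSc hρ hκ hS hI hM
    set κ := b + es S with hκdef
    have hb : b = κ - es S := by rw [hκdef, sub_es_eq]
    have hk : (A.ok κ).Nonempty := ok_top (c := (b, S, x)) hx
    rw [hb] at hx ⊢
    have hT : A.Top r ρ kp κ := ⟨hk, hρ, hκ⟩
    have D := hD t ht κ hT
    by_cases hIn : In κ
    · have ht0 : t = 0 := by
        by_contra h0
        exact hI (Nat.pos_of_ne_zero h0) hIn
      subst ht0
      obtain ⟨hc, s4⟩ := hin κ hT hIn
      exact Submodule.mem_sup_right (cluster_inert H D hc s4 hx hρ hκ hS)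
    · by_cases hd : Disjoint S (cc t κ)
      · exact Submodule.mem_sup_right (cluster_disj H D hx hρ hκ hS hd)
      · refine cluster_meet H D hx hρ hκ hS hd _ ?_
        intro S' hS' hcard hd' hsd x' hx'
        apply Submodule.mem_sup_left
        apply Finsupp.single_mem_supported
        refine ⟨⟨⟨hx', ?_, ?_⟩, ?_, ?_⟩, ?_, ?_⟩
        · simp only; rw [hcard, hSc]
        · simp only; rw [sub_add_es, hρ]
        · simp only; rw [sub_add_es, hκ]
        · simp only; rw [sub_add_es]; exact hS'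
        · simp only; rw [sub_add_es]; exact fun _ => hIn
        · intro t' ht'
          simp only
          rw [sub_add_es]
          rcases Nat.lt_succ_iff_lt_or_eq.1 ht' with h1 | h1
          · have h2 := hM t' h1
            rw [Finset.not_disjoint_iff] at h2 ⊢
            obtain ⟨l, hl1, hl2⟩ := h2
            have h3 : l ∉ cc t κ := by
              have h4 := hdis κ hT hIn t' (by omega) t ht (by omega)
              exact Finset.disjoint_left.1 h4 hl2
            have h5 : l ∈ S' \ cc t κ := by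
              rw [hsd]; exact mem_sdiff.2 ⟨hl1, h3⟩
            exact ⟨l, (mem_sdiff.1 h5).1, hl2⟩
          · rw [h1]; exact hd'

/-- a set meeting `m + 1` pairwise disjoint sets has more than `m` elements -/
lemma card_meet {S : Finset (Fin N)} {m : ℕ} (c : ℕ → Finset (Fin N))
    (hdis : ∀ t, t ≤ m → ∀ t', t' ≤ m → t ≠ t' → Disjoint (c t) (c t'))
    (hm : ∀ t, t < m + 1 → ¬ Disjoint S (c t)) : m + 1 ≤ S.card := by
  classical
  have h1 : ∀ t : Fin (m + 1), ∃ l, l ∈ S ∧ l ∈ c t := by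
    intro t
    have := hm t t.2
    rw [Finset.not_disjoint_iff] at this
    exact this
  choose f hf1 hf2 using h1
  have hinj : Function.Injective f := by
    intro t t' he
    by_contra hne
    have h2 := hdis t (by omega) t' (by omega) (fun h => hne (Fin.ext h))
    exact Finset.disjoint_left.1 h2 (hf2 t) (he ▸ hf2 t')
  have h3 := Finset.card_le_card_of_injOn (s := (Finset.univ : Finset (Fin (m + 1)))) (t := S) f
    (fun t _ => hf1 t) (hinj.injOn)
  simpa using h3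

/-- **(7b)** -/
theorem sevenB (H : A.Crit r ρ Cb kp) {q m : ℕ} (hq : q ≤ m)
    (halt : ∀ κ, A.Top r ρ kp κ → A.Alt m κ (Cb κ))
    (y : Cl N Y →₀ ℤ) (hy : y ∈ A.V q (fun t => r t ≤ ρ)) (hdy : A.d y ∈ A.Low r ρ) :
    ∃ x ∈ A.V (q + 1) (fun t => r t ≤ ρ), y - A.d x ∈ A.V q (fun t => r t < ρ) := by
  classical
  have hred : A.Red r ρ q (A.Tc r ρ Cb kp q) := by
    by_cases hex : ∃ κ, A.Top r ρ kp κ
    swap
    · refine (Red.empty q).mono ?_
      rintro ⟨b, S, x⟩ ⟨⟨hx, -, hρ⟩, hκ, -⟩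
      exact absurd ⟨b + es S, ok_top (c := (b, S, x)) hx, hρ, hκ⟩ hex
    have hj0 : Nonempty (Fin N) := by
      obtain ⟨κ, hκ⟩ := hex
      rcases halt κ hκ with ⟨j, -⟩ | ⟨cc, jj, -⟩
      · exact ⟨j⟩
      · exact ⟨jj 0⟩
    obtain ⟨j0⟩ := hj0
    -- the global data
    set In : (Fin N → ℤ) → Prop := fun κ => ∃ (j : Fin N) (σ : Finset (Fin N) → Y → Y),
      A.HD κ (Cb κ) {j} j σ ∧ ∀ S ⊆ Cb κ, j ∈ S → ∀ x ∈ A.ok (κ - es S),
        σ (S.erase j) (A.up (κ - es (S.erase j)) x) = x with hIn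
    have hdata : ∀ κ, ∃ (cc : ℕ → Finset (Fin N)) (jj : ℕ → Fin N)
        (σ : ℕ → Finset (Fin N) → Y → Y), A.Top r ρ kp κ →
        (∀ t, t ≤ m → A.HD κ (Cb κ) (cc t) (jj t) (σ t)) ∧
        (¬ In κ → ∀ t, t ≤ m → ∀ t', t' ≤ m → t ≠ t' → Disjoint (cc t) (cc t')) ∧
        (In κ → cc 0 = {jj 0} ∧ ∀ S ⊆ Cb κ, jj 0 ∈ S → ∀ x ∈ A.ok (κ - es S),
          σ 0 (S.erase (jj 0)) (A.up (κ - es (S.erase (jj 0))) x) = x) := by
      intro κ
      by_cases hT : A.Top r ρ kp κ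
      · by_cases hi : In κ
        · obtain ⟨j, σ, h1, h2⟩ := hi
          exact ⟨fun _ => {j}, fun _ => j, fun _ => σ, fun _ => ⟨fun _ _ => h1,
            fun h => absurd ⟨j, σ, h1, h2⟩ h, fun _ => ⟨rfl, h2⟩⟩⟩
        · rcases halt κ hT with h | ⟨cc, jj, σ, h1, h2⟩
          · exact absurd h hi
          · exact ⟨cc, jj, σ, fun _ => ⟨h1, fun _ => h2, fun h => absurd h hi⟩⟩
      · exact ⟨fun _ => ∅, fun _ => j0, fun _ _ x => x, fun h => absurd h hT⟩
    choose cc jj σ hd using hdata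
    have steps : ∀ n, n ≤ m + 1 →
        A.Red r ρ q (A.Sc r ρ Cb kp q In (fun t κ => cc κ t) (m + 1 - n)) := by
      intro n
      induction n with
      | zero =>
        intro _
        refine (Red.empty q).mono ?_
        rintro ⟨b, S, x⟩ ⟨⟨⟨hx, hS, hρ⟩, hκ, -⟩, hI, hM⟩
        simp only at hx hS hρ hκ hI hM
        have hT : A.Top r ρ kp (b + es S) := ⟨ok_top (c := (b, S, x)) hx, hρ, hκ⟩
        have h1 := card_meet (S := S) (m := m) (fun t => cc (b + es S) t)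
          ((hd _ hT).2.1 (hI (by omega))) (fun t ht => hM t (by omega))
        exfalso
        omega
      | succ n ih =>
        intro hn
        have h1 := ih (by omega)
        have e : m + 1 - n = (m + 1 - (n + 1)) + 1 := by omega
        rw [e] at h1
        exact h1.cluster H In (fun t κ => cc κ t) (fun t κ => jj κ t) (fun t κ => σ κ t)
          (m := m) (fun t ht κ hT => (hd κ hT).1 t ht) (fun κ hT hI => (hd κ hT).2.1 hI)
          (fun κ hT hI => (hd κ hT).2.2 hI) _ (by omega)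
    have h0 := steps (m + 1) le_rfl
    rw [Nat.sub_self] at h0
    refine h0.mono ?_
    intro c hc
    exact ⟨hc, fun h => absurd h (lt_irrefl 0), fun t ht => absurd ht (Nat.not_lt_zero t)⟩
  have hlev := Red.pushAll H (hred.mono (Pc_univ H q))
  obtain ⟨x, hx, hyx⟩ := hlev y (by
    have h1 : A.cells q (fun t => r t ≤ ρ) ⊆ A.cells q (fun t => r t = ρ) ∪ A.lowc r ρ := by
      rintro c ⟨h1, h2, h3⟩
      rcases lt_or_eq_of_le h3 with h | h
      · exact Or.inr ⟨h1, h⟩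
      · exact Or.inl ⟨h1, h2, h⟩
    have h2 := Finsupp.supported_mono (M := ℤ) (R := ℤ) h1 hy
    rw [Finsupp.supported_union] at h2
    exact h2) hdy
  refine ⟨x, hx, ?_⟩
  have h1 : y - A.d x ∈ A.V q (fun t => r t ≤ ρ) := by
    refine Submodule.sub_mem _ hy (A.d_mem q _ (fun k k' hk hk' => (H.mono _ _ hk).trans hk') x hx)
  intro c hc
  have h2 := h1 hc
  have h3 := hyx hc
  exact ⟨h2.1, h2.2.1, h3.2⟩

end Sys

end Pool.Agent.FPX
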