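import Pool.Agent.Lib.MP_f973c6_al.IfX.Base

/-! Sign calculus, `d d = 0`, the pushing homotopy, acyclicity of the full complex. -/

namespace Pool.Agent.FPX

open Finset

section signs
variable {N : ℕ}

lemma sgn_sq (j : Fin N) (S : Finset (Fin N)) : sgn j S * sgn j S = 1 := by
  unfold sgn
  rw [← pow_add, ← two_mul, pow_mul]
  norm_num

lemma sgn_erase_of_lt {i j : Fin N} {S : Finset (Fin N)} (hi : i ∈ S) (hij : i < j) :
    sgn j (S.erase i) = -sgn j S := by
  unfold sgn
  have h1 : (S.erase i).filter (· < j) = (S.filter (· < j)).erase i := by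
    ext a; simp only [mem_filter, mem_erase]; tauto
  have h2 : i ∈ S.filter (· < j) := mem_filter.2 ⟨hi, hij⟩
  have h3 := card_erase_of_mem h2
  have h4 : 0 < (S.filter (· < j)).card := card_pos.2 ⟨i, h2⟩
  rw [h1, h3]
  obtain ⟨k, hk⟩ := Nat.exists_eq_succ_of_ne_zero h4.ne'
  rw [hk, Nat.succ_sub_one, pow_succ]
  ring

lemma sgn_erase_of_not_lt {i j : Fin N} {S : Finset (Fin N)} (hij : ¬ i < j) :
    sgn j (S.erase i) = sgn j S := by
  unfold sgn
  have h1 : (S.erase i).filter (· < j) = S.filter (· < j) := by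
    ext a; simp only [mem_filter, mem_erase]
    constructor
    · rintro ⟨⟨-, h1⟩, h2⟩; exact ⟨h1, h2⟩
    · rintro ⟨h1, h2⟩
      refine ⟨⟨?_, h1⟩, h2⟩
      rintro rfl
      exact hij h2
  rw [h1]

lemma sgn_insert_of_lt {i j : Fin N} {S : Finset (Fin N)} (hi : i ∉ S) (hij : i < j) :
    sgn j (insert i S) = -sgn j S := by
  have h := sgn_erase_of_lt (mem_insert_self i S) hij
  rw [erase_insert hi] at h
  rw [h]; ring

lemma sgn_insert_of_not_lt {i j : Fin N} {S : Finset (Fin N)} (hi : i ∉ S) (hij : ¬ i < j) :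
    sgn j (insert i S) = sgn j S := by
  have h := sgn_erase_of_not_lt (S := insert i S) hij
  rw [erase_insert hi] at h
  exact h.symm

/-- the sign rule behind `d d = 0` -/
lemma sgn_swap {i j : Fin N} {S : Finset (Fin N)} (hi : i ∈ S) (hj : j ∈ S) (hij : i ≠ j) :
    sgn j S * sgn i (S.erase j) = -(sgn i S * sgn j (S.erase i)) := by
  rcases lt_or_gt_of_ne hij with h | h
  · rw [sgn_erase_of_lt hi h, sgn_erase_of_not_lt (not_lt.2 h.le)]; ring
  · rw [sgn_erase_of_lt hj h, sgn_erase_of_not_lt (not_lt.2 h.le)]; ring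

/-- the sign rule behind the homotopy identity -/
lemma sgn_swap' {i j : Fin N} {S : Finset (Fin N)} (hi : i ∈ S) (hj : j ∉ S) :
    sgn j S * sgn i (insert j S) = -(sgn i S * sgn j (S.erase i)) := by
  have hij : i ≠ j := fun h => hj (h ▸ hi)
  rcases lt_or_gt_of_ne hij with h | h
  · rw [sgn_erase_of_lt hi h, sgn_insert_of_not_lt hj (not_lt.2 h.le)]; ring
  · rw [sgn_insert_of_lt hj h, sgn_erase_of_not_lt (not_lt.2 h.le)]; ring

end signs

section vectors
variable {N : ℕ}

lemma ev_self (j : Fin N) : ev j j = 1 := by simp [ev]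

lemma ev_ne {i j : Fin N} (h : i ≠ j) : ev j i = 0 := by simp [ev, h]

lemma le_add_ev (b : Fin N → ℤ) (j : Fin N) : b ≤ b + ev j := by
  intro i
  simp only [Pi.add_apply, ev]
  split_ifs <;> omega

lemma add_ev_add_es {b : Fin N → ℤ} {S : Finset (Fin N)} {j : Fin N} (hj : j ∈ S) :
    b + ev j + es (S.erase j) = b + es S := by
  funext i
  simp only [Pi.add_apply, ev, es, mem_erase]
  by_cases h : i = j
  · subst h; simp [hj]
  · simp [h]

lemma add_es_erase_le (b : Fin N → ℤ) (S : Finset (Fin N)) (j : Fin N) :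
    b + es (S.erase j) ≤ b + es S := by
  intro i
  simp only [Pi.add_apply, es, mem_erase]
  by_cases h1 : i = j <;> by_cases h2 : i ∈ S <;> simp [h1, h2]
  all_goals (try split_ifs) <;> omega

lemma add_ev_comm (b : Fin N → ℤ) (i j : Fin N) : b + ev i + ev j = b + ev j + ev i := by
  rw [add_assoc, add_comm (ev i), ← add_assoc]

end vectors

/-- linear extension -/
noncomputable def lin {X M : Type*} [AddCommGroup M] (f : X → M) : (X →₀ ℤ) →ₗ[ℤ] M :=
  Finsupp.lift M ℤ X f

lemma lin_single {X M : Type*} [AddCommGroup M] (f : X → M) (c : X) (a : ℤ) :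
    lin f (Finsupp.single c a) = a • f c := by
  simp [lin]

lemma lin_one {X M : Type*} [AddCommGroup M] (f : X → M) (c : X) :
    lin f (Finsupp.single c 1) = f c := by
  rw [lin_single, one_smul]

/-- a linear map is controlled by its values on the cells of the support -/
lemma lin_mem {X M : Type*} [AddCommGroup M] (L : (X →₀ ℤ) →ₗ[ℤ] M) (W : Submodule ℤ M)
    (s : Set X) (h : ∀ c ∈ s, L (Finsupp.single c 1) ∈ W) (y : X →₀ ℤ)
    (hy : y ∈ Finsupp.supported ℤ ℤ s) : L y ∈ W := by
  have h1 : Finsupp.supported ℤ ℤ s ≤ W.comap L := by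
    rw [Finsupp.supported_eq_span_single, Submodule.span_le]
    rintro _ ⟨c, hc, rfl⟩
    exact h c hc
  exact h1 hy

/-- two linear maps which agree on the cells of the support agree -/
lemma lin_ext {X M : Type*} [AddCommGroup M] (L L' : (X →₀ ℤ) →ₗ[ℤ] M)
    (s : Set X) (h : ∀ c ∈ s, L (Finsupp.single c 1) = L' (Finsupp.single c 1)) (y : X →₀ ℤ)
    (hy : y ∈ Finsupp.supported ℤ ℤ s) : L y = L' y := by
  have h1 := lin_mem (L - L') ⊥ s (fun c hc => by
    rw [LinearMap.sub_apply, h c hc, sub_self]; exact Submodule.zero_mem _) y hy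
  rw [Submodule.mem_bot, LinearMap.sub_apply] at h1
  exact sub_eq_zero.1 h1

/-- an antisymmetric double sum vanishes -/
lemma antisym {N : ℕ} {M : Type*} [AddCommGroup M] (h2 : ∀ x : M, (2 : ℤ) • x = 0 → x = 0)
    (S : Finset (Fin N)) (a : Fin N → Fin N → ℤ) (G : Fin N → Fin N → M)
    (ha : ∀ i ∈ S, ∀ j ∈ S, i ≠ j → a j i = -a i j)
    (hG : ∀ i ∈ S, ∀ j ∈ S, i ≠ j → G j i = G i j) :
    ∑ j ∈ S, ∑ i ∈ S.erase j, a j i • G j i = 0 := by
  apply h2
  have h1 : ∑ j ∈ S, ∑ i ∈ S.erase j, a j i • G j i
      = -∑ j ∈ S, ∑ i ∈ S.erase j, a j i • G j i := by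
    have h3 : ∑ j ∈ S, ∑ i ∈ S.erase j, a j i • G j i
        = ∑ i ∈ S, ∑ j ∈ S.erase i, a j i • G j i := by
      apply Finset.sum_comm'
      intro x y
      simp only [mem_erase]
      constructor
      · rintro ⟨h1, h2, h3⟩; exact ⟨⟨fun h => h2 h.symm, h1⟩, h3⟩
      · rintro ⟨⟨h1, h2⟩, h3⟩; exact ⟨h2, fun h => h1 h.symm, h3⟩
    calc ∑ j ∈ S, ∑ i ∈ S.erase j, a j i • G j i
        = ∑ i ∈ S, ∑ j ∈ S.erase i, a j i • G j i := h3
      _ = ∑ i ∈ S, ∑ j ∈ S.erase i, -(a i j • G i j) := by
        refine Finset.sum_congr rfl fun i hi => Finset.sum_congr rfl fun j hj => ?_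
        have hj' := mem_erase.1 hj
        rw [ha i hi j hj'.2 (fun h => hj'.1 h.symm), hG i hi j hj'.2 (fun h => hj'.1 h.symm),
          neg_smul]
      _ = -∑ j ∈ S, ∑ i ∈ S.erase j, a j i • G j i := by
        simp only [Finset.sum_neg_distrib]
  rw [two_smul]
  nth_rewrite 1 [h1]
  exact neg_add_cancel _

lemma finsupp_two {X : Type*} (x : X →₀ ℤ) (h : (2 : ℤ) • x = 0) : x = 0 := by
  ext c
  have h1 := DFunLike.congr_fun h c
  simp only [Finsupp.smul_apply, smul_eq_mul, Finsupp.coe_zero, Pi.zero_apply] at h1 ⊢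
  omega

/-- telescoping over an integer interval -/
lemma telescope {M : Type*} [AddCommGroup M] (f : ℤ → M) (a T : ℤ) (h : a ≤ T) :
    ∑ s ∈ Finset.Ico a T, (f (s + 1) - f s) = f T - f a := by
  induction T, h using Int.leInduction with
  | base => simp
  | succ n hn ih =>
    have h1 : Finset.Ico a (n + 1) = insert n (Finset.Ico a n) := by
      ext s; simp only [mem_Ico, mem_insert]; omega
    rw [h1, Finset.sum_insert (by simp), ih]
    abel

namespace Sys
variable {N : ℕ} {Y : Type*} (A : Sys N Y)

lemma d_single (c : Cl N Y) : A.d (Finsupp.single c 1) = A.bd c := lin_one A.bd c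

lemma single_mem {q : ℕ} {P : (Fin N → ℤ) → Prop} {c : Cl N Y} (h : c ∈ A.cells q P) :
    Finsupp.single c (1 : ℤ) ∈ A.V q P := Finsupp.single_mem_supported ℤ 1 h

/-- the boundary maps chains to chains -/
theorem d_mem (q : ℕ) (P : (Fin N → ℤ) → Prop) (hP : ∀ k k', k ≤ k' → P k' → P k)
    (y : Cl N Y →₀ ℤ) (hy : y ∈ A.V (q + 1) P) : A.d y ∈ A.V q P := by
  refine lin_mem A.d _ _ ?_ y hy
  rintro ⟨b, S, x⟩ ⟨hx, hS, hp⟩
  simp only at hx hS hp
  rw [A.d_single, bd]
  apply Submodule.sum_mem
  intro j hj
  simp only at hj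
  apply Submodule.smul_mem
  apply Submodule.sub_mem
  · apply A.single_mem
    refine ⟨A.up_ok (le_add_ev b j) hx, ?_, ?_⟩
    · simp only; rw [card_erase_of_mem hj, hS]; rfl
    · simp only; rw [add_ev_add_es hj]; exact hp
  · apply A.single_mem
    refine ⟨hx, ?_, ?_⟩
    · simp only; rw [card_erase_of_mem hj, hS]; rfl
    · exact hP _ _ (add_es_erase_le b S j) hp

/-- cells of dimension zero have no boundary -/
lemma d_zero (P : (Fin N → ℤ) → Prop) (y : Cl N Y →₀ ℤ) (hy : y ∈ A.V 0 P) : A.d y = 0 := by
  have h := lin_mem A.d ⊥ _ (fun c hc => ?_) y hy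
  · exact (Submodule.mem_bot ℤ).1 h
  · obtain ⟨b, S, x⟩ := c
    obtain ⟨-, hS, -⟩ := hc
    simp only [card_eq_zero] at hS
    rw [A.d_single, bd]
    simp [hS]

/-- `d d = 0` -/
theorem d_d (q : ℕ) (P : (Fin N → ℤ) → Prop) (y : Cl N Y →₀ ℤ) (hy : y ∈ A.V q P) :
    A.d (A.d y) = 0 := by
  have h := lin_mem (A.d ∘ₗ A.d) ⊥ _ (fun c hc => ?_) y hy
  · exact (Submodule.mem_bot ℤ).1 h
  rw [Submodule.mem_bot, LinearMap.comp_apply, A.d_single]
  obtain ⟨b, S, x⟩ := c
  obtain ⟨hx, -, -⟩ := hc
  simp only at hx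
  rw [bd, map_sum]
  have hterm : ∀ j ∈ S, A.d (sgn j S • (Finsupp.single (b + ev j, S.erase j, A.up (b + ev j) x) (1 : ℤ)
        - Finsupp.single (b, S.erase j, x) 1))
      = ∑ i ∈ S.erase j, (sgn j S * sgn i (S.erase j)) •
        (Finsupp.single (b + ev j + ev i, (S.erase j).erase i, A.up (b + ev j + ev i) x) (1 : ℤ)
        - Finsupp.single (b + ev j, (S.erase j).erase i, A.up (b + ev j) x) 1
        - Finsupp.single (b + ev i, (S.erase j).erase i, A.up (b + ev i) x) 1
        + Finsupp.single (b, (S.erase j).erase i, x) 1) := by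
    intro j hj
    rw [map_smul, map_sub, A.d_single, A.d_single, bd, bd]
    rw [← Finset.sum_sub_distrib, Finset.smul_sum]
    refine Finset.sum_congr rfl fun i hi => ?_
    rw [A.up_up (le_add_ev b j) (le_add_ev _ i) hx, ← smul_sub, smul_smul]
    congr 1
    abel
  rw [Finset.sum_congr rfl hterm]
  apply antisym finsupp_two S (fun j i => sgn j S * sgn i (S.erase j)) _
  · intro i hi j hj hij
    exact sgn_swap hi hj hij
  · intro i hi j hj hij
    rw [add_ev_comm b j i, Finset.erase_right_comm]
    abel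

/-- the homotopy which pushes coordinate `j` up to `T` -/
noncomputable def hcell (j : Fin N) (T : ℤ) (c : Cl N Y) : Cl N Y →₀ ℤ :=
  if j ∈ c.2.1 then 0 else sgn j c.2.1 • ∑ s ∈ Finset.Ico (c.1 j) T,
    Finsupp.single (Function.update c.1 j s, insert j c.2.1, A.up (Function.update c.1 j s) c.2.2) 1

/-- the pushing homotopy -/
noncomputable def h (j : Fin N) (T : ℤ) : (Cl N Y →₀ ℤ) →ₗ[ℤ] (Cl N Y →₀ ℤ) := lin (A.hcell j T)

/-- the cell pushed up to `T` -/
noncomputable def pcell (j : Fin N) (T : ℤ) (c : Cl N Y) : Cl N Y →₀ ℤ :=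
  if j ∈ c.2.1 then 0 else
    Finsupp.single (Function.update c.1 j T, c.2.1, A.up (Function.update c.1 j T) c.2.2) 1

/-- the pushing map -/
noncomputable def push (j : Fin N) (T : ℤ) : (Cl N Y →₀ ℤ) →ₗ[ℤ] (Cl N Y →₀ ℤ) :=
  lin (A.pcell j T)

lemma update_add_ev (b : Fin N → ℤ) (j : Fin N) (s : ℤ) :
    Function.update b j s + ev j = Function.update b j (s + 1) := by
  funext i
  by_cases h : i = j
  · subst h; simp [ev]
  · simp [ev, h]

lemma update_add_ev_ne (b : Fin N → ℤ) {i j : Fin N} (hij : i ≠ j) (s : ℤ) :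
    Function.update b j s + ev i = Function.update (b + ev i) j s := by
  funext l
  by_cases h : l = j
  · subst h
    simp only [Pi.add_apply, Function.update_self, ev]
    rw [if_neg (fun h => hij h.symm), add_zero]
  · simp [h]

lemma add_ev_update (b : Fin N → ℤ) (j : Fin N) (s : ℤ) :
    Function.update (b + ev j) j s = Function.update b j s := by
  funext l
  by_cases h : l = j
  · subst h; simp
  · simp [h, ev]

lemma le_update {b : Fin N → ℤ} {j : Fin N} {s : ℤ} (h : b j ≤ s) : b ≤ Function.update b j s := by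
  intro l
  by_cases hl : l = j
  · subst hl; simpa using h
  · simp [hl]

/-- **The homotopy identity.** -/
theorem homotopy (j : Fin N) (T : ℤ) (b : Fin N → ℤ) (S : Finset (Fin N)) (x : Y)
    (hx : x ∈ A.ok b) (hT : (b + es S) j ≤ T) :
    A.d (A.h j T (Finsupp.single (b, S, x) 1)) + A.h j T (A.d (Finsupp.single (b, S, x) 1))
      = A.push j T (Finsupp.single (b, S, x) 1) - Finsupp.single (b, S, x) 1 := by
  have hh : A.h j T (Finsupp.single (b, S, x) 1) = A.hcell j T (b, S, x) := lin_one _ _
  have hp : A.push j T (Finsupp.single (b, S, x) 1) = A.pcell j T (b, S, x) := lin_one _ _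
  have hh' : ∀ c : Cl N Y, A.h j T (Finsupp.single c 1) = A.hcell j T c := fun c => lin_one _ _
  rw [hh, hp, A.d_single]
  by_cases hj : j ∈ S
  · -- `j ∈ S`
    have hbT : b j + 1 ≤ T := by
      simp only [Pi.add_apply, es, hj, if_true] at hT; exact hT
    have e1 : A.hcell j T (b, S, x) = 0 := by simp [hcell, hj]
    have e2 : A.pcell j T (b, S, x) = 0 := by simp [pcell, hj]
    rw [e1, e2, map_zero, zero_add, zero_sub, bd, map_sum]
    simp only
    rw [Finset.sum_eq_single_of_mem j hj]
    · rw [map_smul, map_sub, hh', hh']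
      simp only [hcell, mem_erase, ne_eq, not_true, false_and, if_false]
      rw [insert_erase hj, sgn_erase_of_not_lt (lt_irrefl j)]
      have hI : Finset.Ico (b j) T = insert (b j) (Finset.Ico (b j + 1) T) := by
        ext s; simp only [mem_Ico, mem_insert]; omega
      have e3 : (b + ev j) j = b j + 1 := by simp [ev]
      rw [e3, hI, Finset.sum_insert (by simp)]
      have e4 : ∑ s ∈ Finset.Ico (b j + 1) T, Finsupp.single (Function.update (b + ev j) j s, S,
            A.up (Function.update (b + ev j) j s) (A.up (b + ev j) x)) (1 : ℤ)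
          = ∑ s ∈ Finset.Ico (b j + 1) T, Finsupp.single (Function.update b j s, S,
            A.up (Function.update b j s) x) (1 : ℤ) := by
        refine Finset.sum_congr rfl fun s hs => ?_
        have hs' := (mem_Ico.1 hs).1
        rw [A.up_up (le_add_ev b j) (le_update (by rw [e3]; exact hs')) hx, add_ev_update]
      rw [e4, Function.update_eq_self, A.up_self hx, smul_add, sub_add_eq_sub_sub, smul_sub,
        smul_sub, smul_smul, smul_smul, sgn_sq, one_smul, one_smul]
      abel
    · intro i hi hij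
      rw [map_smul, map_sub, hh', hh']
      have hj' : j ∈ S.erase i := mem_erase.2 ⟨fun h => hij h.symm, hj⟩
      simp [hcell, hj']
  · -- `j ∉ S`
    have hbT : b j ≤ T := by
      simp only [Pi.add_apply, es, hj, if_false, add_zero] at hT; exact hT
    have e1 : A.hcell j T (b, S, x) = sgn j S • ∑ s ∈ Finset.Ico (b j) T,
      Finsupp.single (Function.update b j s, insert j S, A.up (Function.update b j s) x) 1 := by
      simp [hcell, hj]
    have e2 : A.pcell j T (b, S, x)
      = Finsupp.single (Function.update b j T, S, A.up (Function.update b j T) x) 1 := by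
      simp [pcell, hj]
    rw [e1, e2, map_smul, map_sum]
    -- the boundary of the prism cells
    have hd : ∀ s ∈ Finset.Ico (b j) T,
        A.d (Finsupp.single (Function.update b j s, insert j S, A.up (Function.update b j s) x) 1)
        = sgn j S • (Finsupp.single (Function.update b j (s + 1), S,
              A.up (Function.update b j (s + 1)) x) (1 : ℤ)
            - Finsupp.single (Function.update b j s, S, A.up (Function.update b j s) x) 1)
          + ∑ i ∈ S, sgn i (insert j S) •
            (Finsupp.single (Function.update (b + ev i) j s, insert j (S.erase i),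
              A.up (Function.update (b + ev i) j s) x) (1 : ℤ)
            - Finsupp.single (Function.update b j s, insert j (S.erase i),
              A.up (Function.update b j s) x) 1) := by
      intro s hs
      have hs' := (mem_Ico.1 hs).1
      have hle : b ≤ Function.update b j s := le_update hs'
      rw [A.d_single, bd]
      simp only
      rw [Finset.sum_insert hj, erase_insert hj, sgn_insert_of_not_lt hj (lt_irrefl j),
        A.up_up hle (le_add_ev _ j) hx, update_add_ev]
      congr 1
      refine Finset.sum_congr rfl fun i hi => ?_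
      have hij : i ≠ j := fun h => hj (h ▸ hi)
      rw [erase_insert_of_ne hij.symm, A.up_up hle (le_add_ev _ i) hx, update_add_ev_ne b hij]
    rw [Finset.sum_congr rfl hd, Finset.sum_add_distrib, ← Finset.smul_sum,
      telescope (fun s => Finsupp.single (Function.update b j s, S,
        A.up (Function.update b j s) x) (1 : ℤ)) (b j) T hbT, smul_add, smul_smul, sgn_sq, one_smul,
      Function.update_eq_self, A.up_self hx]
    -- the homotopy of the boundary
    have hb : A.h j T (A.bd (b, S, x)) = ∑ i ∈ S, sgn i S • (sgn j (S.erase i) •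
        ∑ s ∈ Finset.Ico (b j) T,
          (Finsupp.single (Function.update (b + ev i) j s, insert j (S.erase i),
              A.up (Function.update (b + ev i) j s) x) (1 : ℤ)
            - Finsupp.single (Function.update b j s, insert j (S.erase i),
              A.up (Function.update b j s) x) 1)) := by
      rw [bd, map_sum]
      simp only
      refine Finset.sum_congr rfl fun i hi => ?_
      have hij : i ≠ j := fun h => hj (h ▸ hi)
      have hj' : j ∉ S.erase i := fun h => hj (mem_of_mem_erase h)
      rw [map_smul, map_sub, hh', hh']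
      simp only [hcell, hj', if_false]
      have e3 : (b + ev i) j = b j := by simp [ev, hij.symm]
      rw [e3, ← smul_sub, ← Finset.sum_sub_distrib]
      congr 2
      refine Finset.sum_congr rfl fun s hs => ?_
      have hs' := (mem_Ico.1 hs).1
      rw [A.up_up (le_add_ev b i) (le_update (by rw [e3]; exact hs')) hx]
    rw [hb]
    have hcomm : sgn j S • ∑ s ∈ Finset.Ico (b j) T, ∑ i ∈ S, sgn i (insert j S) •
            (Finsupp.single (Function.update (b + ev i) j s, insert j (S.erase i),
              A.up (Function.update (b + ev i) j s) x) (1 : ℤ)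
            - Finsupp.single (Function.update b j s, insert j (S.erase i),
              A.up (Function.update b j s) x) 1)
        = -∑ i ∈ S, sgn i S • (sgn j (S.erase i) • ∑ s ∈ Finset.Ico (b j) T,
          (Finsupp.single (Function.update (b + ev i) j s, insert j (S.erase i),
              A.up (Function.update (b + ev i) j s) x) (1 : ℤ)
            - Finsupp.single (Function.update b j s, insert j (S.erase i),
              A.up (Function.update b j s) x) 1)) := by
      rw [Finset.sum_comm, Finset.smul_sum, ← Finset.sum_neg_distrib]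
      refine Finset.sum_congr rfl fun i hi => ?_
      rw [← Finset.smul_sum, smul_smul, smul_smul, sgn_swap' hi hj, neg_smul]
    rw [hcomm]
    abel

end Sys

end Pool.Agent.FPX
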