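import Pool.Agent.Lib.MP_f973c6_al.IfX.SevenA

/-! The relative complex of one critical level (7b). -/

namespace Pool.Agent.FPX

open Finset

namespace Sys
variable {N : ℕ} {Y : Type*} (A : Sys N Y) (r : (Fin N → ℤ) → ℝ) (ρ : ℝ)

/-- the valid cells below the level -/
def lowc : Set (Cl N Y) := {c | c.2.2 ∈ A.ok c.1 ∧ r (c.1 + es c.2.1) < ρ}

/-- the chains below the level -/
noncomputable def Low : Submodule ℤ (Cl N Y →₀ ℤ) := Finsupp.supported ℤ ℤ (A.lowc r ρ)

variable {A r ρ}

lemma single_low {c : Cl N Y} (h : c ∈ A.lowc r ρ) : Finsupp.single c (1 : ℤ) ∈ A.Low r ρ :=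
  Finsupp.single_mem_supported ℤ 1 h

lemma d_low (hr : ∀ k k', k ≤ k' → r k ≤ r k') {y : Cl N Y →₀ ℤ} (hy : y ∈ A.Low r ρ) :
    A.d y ∈ A.Low r ρ := by
  refine lin_mem A.d _ _ ?_ y hy
  rintro ⟨b, S, x⟩ ⟨hx, hp⟩
  simp only at hx hp
  rw [A.d_single, bd]
  apply Submodule.sum_mem
  intro j hj
  simp only at hj
  apply Submodule.smul_mem
  apply Submodule.sub_mem
  · apply single_low
    refine ⟨A.up_ok (le_add_ev b j) hx, ?_⟩
    simp only; rw [add_ev_add_es hj]; exact hp
  · apply single_low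
    refine ⟨hx, ?_⟩
    exact lt_of_le_of_lt (hr _ _ (add_es_erase_le b S j)) hp

variable (A r ρ)

/-- chains supported on `S` (mod low) which are relative cycles are relative boundaries -/
def Red (q : ℕ) (S : Set (Cl N Y)) : Prop :=
  ∀ y ∈ Finsupp.supported ℤ ℤ S ⊔ A.Low r ρ, A.d y ∈ A.Low r ρ →
    ∃ x ∈ A.V (q + 1) (fun t => r t ≤ ρ), y - A.d x ∈ A.Low r ρ

variable {A r ρ}

lemma Red.empty (q : ℕ) : A.Red r ρ q ∅ := by
  intro y hy _
  rw [Finsupp.supported_empty, bot_sup_eq] at hy
  exact ⟨0, Submodule.zero_mem _, by rwa [map_zero, sub_zero]⟩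

lemma Red.mono {q : ℕ} {S S' : Set (Cl N Y)} (h : A.Red r ρ q S') (hS : S ⊆ S') :
    A.Red r ρ q S := by
  intro y hy hd
  have h3 : Finsupp.supported ℤ ℤ S ⊔ A.Low r ρ ≤ Finsupp.supported ℤ ℤ S' ⊔ A.Low r ρ :=
    sup_le_sup_right (Finsupp.supported_mono hS) _
  exact h y (h3 hy) hd

lemma Red.step (hr : ∀ k k', k ≤ k' → r k ≤ r k') {q : ℕ} {S S' : Set (Cl N Y)}
    (hS' : A.Red r ρ q S')
    (h : (Cl N Y →₀ ℤ) →ₗ[ℤ] (Cl N Y →₀ ℤ))
    (h0 : ∀ c ∈ A.lowc r ρ, h (Finsupp.single c 1) = 0)
    (h1 : ∀ c ∈ S, h (Finsupp.single c 1) ∈ A.V (q + 1) (fun t => r t ≤ ρ))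
    (h2 : ∀ c ∈ S, Finsupp.single c 1 - A.d (h (Finsupp.single c 1))
      - h (A.d (Finsupp.single c 1)) ∈ Finsupp.supported ℤ ℤ S' ⊔ A.Low r ρ) :
    A.Red r ρ q S := by
  intro y hy hd
  obtain ⟨y1, hy1, y0, hy0, rfl⟩ := Submodule.mem_sup.1 hy
  have hlow : ∀ z ∈ A.Low r ρ, h z = 0 := by
    intro z hz
    have := lin_mem h ⊥ _ (fun c hc => by rw [Submodule.mem_bot]; exact h0 c hc) z hz
    exact (Submodule.mem_bot ℤ).1 this
  have hdy1 : A.d y1 ∈ A.Low r ρ := by
    have : A.d y1 = A.d (y1 + y0) - A.d y0 := by rw [map_add]; abel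
    rw [this]
    exact Submodule.sub_mem _ hd (d_low hr hy0)
  have e1 : h y1 ∈ A.V (q + 1) (fun t => r t ≤ ρ) := lin_mem h _ _ h1 y1 hy1
  have e2 := lin_mem (LinearMap.id - A.d ∘ₗ h - h ∘ₗ A.d) (Finsupp.supported ℤ ℤ S' ⊔ A.Low r ρ) S
    (fun c hc => by simpa using h2 c hc) y1 hy1
  have e3 : h (A.d y1) = 0 := hlow _ hdy1
  have e4 : y1 - A.d (h y1) ∈ Finsupp.supported ℤ ℤ S' ⊔ A.Low r ρ := by
    simpa [e3] using e2
  have e5 : A.d (A.d (h y1)) = 0 := A.d_d _ _ _ e1
  obtain ⟨x, hx, hx'⟩ := hS' (y1 + y0 - A.d (h y1)) (by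
      have : y1 + y0 - A.d (h y1) = (y1 - A.d (h y1)) + y0 := by abel
      rw [this]
      exact Submodule.add_mem _ e4 (Submodule.mem_sup_right hy0)) (by
      rw [map_sub, e5, sub_zero]; exact hd)
  refine ⟨h y1 + x, Submodule.add_mem _ e1 hx, ?_⟩
  rw [map_add, ← sub_sub]
  exact hx'

variable (A r ρ) in
/-- the hypotheses on the critical level `ρ` -/
structure Crit (Cb : (Fin N → ℤ) → Finset (Fin N)) (kp : (Fin N → ℤ) → (Fin N → ℤ)) : Prop where
  mono : ∀ k k', k ≤ k' → r k ≤ r k'
  le : ∀ k, (A.ok k).Nonempty → r k = ρ → k ≤ kp k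
  eq : ∀ k, (A.ok k).Nonempty → r k = ρ → ∀ j ∈ Cb k, kp k j = k j
  iff : ∀ k, (A.ok k).Nonempty → r k = ρ → ∀ k', k' ≤ kp k →
    (r k' = ρ ↔ ∀ j ∈ Cb k, k' j = k j)
  same : ∀ k, (A.ok k).Nonempty → r k = ρ → ∀ k', k' ≤ kp k → r k' = ρ →
    Cb k' = Cb k ∧ kp k' = kp k

namespace Crit
variable {Cb : (Fin N → ℤ) → Finset (Fin N)} {kp : (Fin N → ℤ) → (Fin N → ℤ)}
  (H : A.Crit r ρ Cb kp)
include H

lemma r_kp {k : Fin N → ℤ} (h1 : (A.ok k).Nonempty) (h2 : r k = ρ) : r (kp k) = ρ :=
  (H.iff k h1 h2 (kp k) le_rfl).2 (H.eq k h1 h2)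

lemma r_le {k k' : Fin N → ℤ} (h1 : (A.ok k).Nonempty) (h2 : r k = ρ) (h : k' ≤ kp k) :
    r k' ≤ ρ := by
  rw [← H.r_kp h1 h2]; exact H.mono _ _ h

lemma r_lt {k k' : Fin N → ℤ} (h1 : (A.ok k).Nonempty) (h2 : r k = ρ) (h : k' ≤ kp k)
    {j : Fin N} (hj : j ∈ Cb k) (hne : k' j ≠ k j) : r k' < ρ := by
  refine lt_of_le_of_ne (H.r_le h1 h2 h) fun h3 => hne ?_
  exact (H.iff k h1 h2 k' h).1 h3 j hj

end Crit

lemma ok_top {c : Cl N Y} (h : c.2.2 ∈ A.ok c.1) : (A.ok (c.1 + es c.2.1)).Nonempty :=
  ⟨_, A.up_ok (by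
    intro i; simp only [Pi.add_apply, es]; split_ifs <;> omega) h⟩

/-- the cells of degree `q` and level `ρ` whose directions in `J` outside `Cb` are pushed up -/
def Pc (A : Sys N Y) (r : (Fin N → ℤ) → ℝ) (ρ : ℝ) (Cb : (Fin N → ℤ) → Finset (Fin N))
    (kp : (Fin N → ℤ) → (Fin N → ℤ)) (q : ℕ) (J : Finset (Fin N)) : Set (Cl N Y) :=
  {c | c ∈ A.cells q (fun t => r t = ρ) ∧ ∀ j ∈ J, j ∉ Cb (c.1 + es c.2.1) →
    j ∉ c.2.1 ∧ (c.1 + es c.2.1) j = kp (c.1 + es c.2.1) j}

open Classical in
/-- the value on a cell of the global pushing homotopy in direction `j` -/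
noncomputable def gcell (A : Sys N Y) (r : (Fin N → ℤ) → ℝ) (ρ : ℝ)
    (Cb : (Fin N → ℤ) → Finset (Fin N)) (kp : (Fin N → ℤ) → (Fin N → ℤ)) (j : Fin N)
    (c : Cl N Y) : Cl N Y →₀ ℤ :=
  if c.2.2 ∈ A.ok c.1 ∧ r (c.1 + es c.2.1) = ρ ∧ j ∉ Cb (c.1 + es c.2.1) then
    -A.hcell j (kp (c.1 + es c.2.1) j) c else 0

lemma update_add_es_insert (b : Fin N → ℤ) {S : Finset (Fin N)} {j : Fin N} (hj : j ∉ S) (s : ℤ) :
    Function.update b j s + es (insert j S) = Function.update (b + es S) j (s + 1) := by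
  funext i
  by_cases h : i = j
  · subst h; simp [es]
  · simp [es, h]

lemma update_add_es (b : Fin N → ℤ) {S : Finset (Fin N)} {j : Fin N} (hj : j ∉ S) (s : ℤ) :
    Function.update b j s + es S = Function.update (b + es S) j s := by
  funext i
  by_cases h : i = j
  · subst h; simp [es, hj]
  · simp [es, h]

lemma add_es_erase {b : Fin N → ℤ} {S : Finset (Fin N)} {j : Fin N} (hj : j ∈ S) :
    b + es (S.erase j) = b + es S - ev j := by
  funext i
  simp only [Pi.add_apply, Pi.sub_apply, ev, es, mem_erase]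
  by_cases h : i = j
  · subst h; simp [hj]
  · simp [h]

section push
variable {Cb : (Fin N → ℤ) → Finset (Fin N)} {kp : (Fin N → ℤ) → (Fin N → ℤ)}

/-- the homotopy on a low face of a level cell is low -/
lemma hcell_low (H : A.Crit r ρ Cb kp) {k : Fin N → ℤ} (hk : (A.ok k).Nonempty) (hρ : r k = ρ)
    {j : Fin N} (hj : j ∉ Cb k) {c : Cl N Y} (hc : c.2.2 ∈ A.ok c.1)
    {i : Fin N} (hi : i ∈ Cb k) (hik : (c.1 + es c.2.1) i ≠ k i) (hle : c.1 + es c.2.1 ≤ k) :
    A.hcell j (kp k j) c ∈ A.Low r ρ := by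
  obtain ⟨b, S, x⟩ := c
  simp only at hc hik hle
  unfold hcell
  simp only
  split_ifs with hjS
  · exact Submodule.zero_mem _
  · apply Submodule.smul_mem
    apply Submodule.sum_mem
    intro s hs
    obtain ⟨hs1, hs2⟩ := mem_Ico.1 hs
    apply single_low
    refine ⟨A.up_ok (le_update hs1) hc, ?_⟩
    simp only
    rw [update_add_es_insert b hjS]
    have hij : i ≠ j := fun h => hj (h ▸ hi)
    refine H.r_lt hk hρ ?_ hi (by rw [Function.update_of_ne hij]; exact hik)
    intro l
    by_cases hl : l = j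
    · subst hl; rw [Function.update_self]; exact Int.add_one_le_of_lt hs2
    · rw [Function.update_of_ne hl]
      exact (hle l).trans (H.le k hk hρ l)

/-- raising a level top vertex below `kp` does not change the level data -/
lemma Crit.update (H : A.Crit r ρ Cb kp) {k : Fin N → ℤ} (hk : (A.ok k).Nonempty) (hρ : r k = ρ)
    {j : Fin N} (hj : j ∉ Cb k) {s : ℤ} (hs : s ≤ kp k j) :
    Function.update k j s ≤ kp k ∧ r (Function.update k j s) = ρ ∧
      Cb (Function.update k j s) = Cb k ∧ kp (Function.update k j s) = kp k := by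
  have h1 : Function.update k j s ≤ kp k := by
    intro l
    by_cases hl : l = j
    · subst hl; rw [Function.update_self]; exact hs
    · rw [Function.update_of_ne hl]; exact H.le k hk hρ l
  have h2 : r (Function.update k j s) = ρ := by
    refine (H.iff k hk hρ _ h1).2 fun i hi => ?_
    have hij : i ≠ j := by rintro rfl; exact hj hi
    rw [Function.update_of_ne hij]
  exact ⟨h1, h2, H.same k hk hρ _ h1 h2⟩

/-- one pushing step -/
lemma Red.push (H : A.Crit r ρ Cb kp) {q : ℕ} (J : Finset (Fin N)) (j : Fin N)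
    (h : A.Red r ρ q (A.Pc r ρ Cb kp q (insert j J))) : A.Red r ρ q (A.Pc r ρ Cb kp q J) := by
  classical
  have hl : ∀ c, lin (A.gcell r ρ Cb kp j) (Finsupp.single c 1) = A.gcell r ρ Cb kp j c :=
    fun c => lin_one _ _
  refine h.step H.mono (lin (A.gcell r ρ Cb kp j)) ?_ ?_ ?_
  · rintro c ⟨_, h2⟩
    rw [hl, gcell, if_neg]
    rintro ⟨-, h3, -⟩
    exact h2.ne h3
  · rintro ⟨b, S, x⟩ ⟨⟨hx, hS, hρ⟩, -⟩
    simp only at hx hS hρ
    rw [hl, gcell]
    split_ifs with h3
    · obtain ⟨-, -, hj⟩ := h3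
      simp only at hj
      apply Submodule.neg_mem
      unfold hcell
      simp only
      split_ifs with hjS
      · exact Submodule.zero_mem _
      · apply Submodule.smul_mem
        apply Submodule.sum_mem
        intro s hs
        obtain ⟨hs1, hs2⟩ := mem_Ico.1 hs
        apply A.single_mem
        refine ⟨A.up_ok (le_update hs1) hx, ?_, ?_⟩
        · simp only; rw [card_insert_of_notMem hjS, hS]
        · simp only
          rw [update_add_es_insert b hjS]
          exact (H.update (ok_top (c := (b, S, x)) hx) hρ hj (Int.add_one_le_of_lt hs2)).2.1.le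
    · exact Submodule.zero_mem _
  · rintro ⟨b, S, x⟩ ⟨⟨hx, hS, hρ⟩, hJ⟩
    simp only at hx hS hρ hJ
    have hk : (A.ok (b + es S)).Nonempty := ok_top (c := (b, S, x)) hx
    set k := b + es S with hkdef
    -- the faces of the cell
    have hup : ∀ i ∈ S, (b + ev i) + es (S.erase i) = k := fun i hi => add_ev_add_es hi
    have hlo : ∀ i ∈ S, b + es (S.erase i) ≤ k := fun i _ => add_es_erase_le b S i
    have hloi : ∀ i ∈ S, (b + es (S.erase i)) i ≠ k i := by
      intro i hi
      simp only [hkdef, Pi.add_apply, es, mem_erase, ne_eq, not_true, false_and, if_false, hi,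
        if_true]
      omega
    by_cases hj : j ∈ Cb k
    · -- nothing happens
      have e1 : A.gcell r ρ Cb kp j (b, S, x) = 0 := by
        rw [gcell, if_neg]; rintro ⟨-, -, h3⟩; exact h3 hj
      have e2 : lin (A.gcell r ρ Cb kp j) (A.d (Finsupp.single (b, S, x) 1)) = 0 := by
        rw [A.d_single, bd, map_sum]
        refine Finset.sum_eq_zero fun i hi => ?_
        simp only at hi
        rw [map_smul, map_sub, hl, hl]
        have e3 : A.gcell r ρ Cb kp j (b + ev i, S.erase i, A.up (b + ev i) x) = 0 := by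
          rw [gcell, if_neg]
          rintro ⟨-, -, h3⟩
          simp only at h3
          rw [hup i hi] at h3
          exact h3 hj
        have e4 : A.gcell r ρ Cb kp j (b, S.erase i, x) = 0 := by
          rw [gcell, if_neg]
          rintro ⟨-, h2, h3⟩
          simp only at h2 h3
          rw [(H.same k hk hρ _ ((hlo i hi).trans (H.le k hk hρ)) h2).1] at h3
          exact h3 hj
        simp only
        rw [e3, e4, sub_zero, smul_zero]
      rw [hl, e1, e2, map_zero, sub_zero, sub_zero]
      apply Submodule.mem_sup_left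
      apply Finsupp.single_mem_supported
      refine ⟨⟨hx, hS, hρ⟩, ?_⟩
      intro i hi hi'
      simp only at hi' ⊢
      rcases mem_insert.1 hi with rfl | hi
      · exact absurd hj hi'
      · exact hJ i hi hi'
    · -- push
      have e1 : A.gcell r ρ Cb kp j (b, S, x) = -A.h j (kp k j) (Finsupp.single (b, S, x) 1) := by
        have : A.h j (kp k j) (Finsupp.single (b, S, x) 1) = A.hcell j (kp k j) (b, S, x) :=
          lin_one _ _
        rw [this, gcell, if_pos ⟨hx, hρ, hj⟩]
      have e2 : lin (A.gcell r ρ Cb kp j) (A.d (Finsupp.single (b, S, x) 1))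
          + A.h j (kp k j) (A.d (Finsupp.single (b, S, x) 1)) ∈ A.Low r ρ := by
        rw [A.d_single, bd, map_sum, map_sum, ← Finset.sum_add_distrib]
        apply Submodule.sum_mem
        intro i hi
        simp only at hi
        simp only
        rw [map_smul, map_smul, ← smul_add]
        apply Submodule.smul_mem
        rw [map_sub, map_sub, hl, hl]
        have hh : ∀ c, A.h j (kp k j) (Finsupp.single c 1) = A.hcell j (kp k j) c :=
          fun c => lin_one _ _
        rw [hh, hh]
        have e3 : A.gcell r ρ Cb kp j (b + ev i, S.erase i, A.up (b + ev i) x)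
            = -A.hcell j (kp k j) (b + ev i, S.erase i, A.up (b + ev i) x) := by
          have hu := hup i hi
          rw [gcell, if_pos]
          · simp only [hu]
          · refine ⟨A.up_ok (le_add_ev b i) hx, ?_, ?_⟩
            · simp only; rw [hu]; exact hρ
            · simp only; rw [hu]; exact hj
        rw [e3]
        have e4 : A.gcell r ρ Cb kp j (b, S.erase i, x) + A.hcell j (kp k j) (b, S.erase i, x)
            ∈ A.Low r ρ := by
          by_cases h5 : r (b + es (S.erase i)) = ρ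
          · obtain ⟨h6, h7⟩ := H.same k hk hρ _ ((hlo i hi).trans (H.le k hk hρ)) h5
            rw [gcell, if_pos]
            · simp only [h7]
              rw [neg_add_cancel]
              exact Submodule.zero_mem _
            · refine ⟨hx, h5, ?_⟩
              simp only; rw [h6]; exact hj
          · rw [gcell, if_neg (fun h => h5 h.2.1), zero_add]
            have h6 : i ∈ Cb k := by
              by_contra h6
              apply h5
              refine (H.iff k hk hρ _ ((hlo i hi).trans (H.le k hk hρ))).2 fun l hl => ?_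
              have hli : l ≠ i := fun h => h6 (h ▸ hl)
              simp [hkdef, es, hli]
            exact hcell_low H hk hρ hj (c := (b, S.erase i, x)) hx h6 (hloi i hi) (hlo i hi)
        have : -A.hcell j (kp k j) (b + ev i, S.erase i, A.up (b + ev i) x)
            - A.gcell r ρ Cb kp j (b, S.erase i, x)
            + (A.hcell j (kp k j) (b + ev i, S.erase i, A.up (b + ev i) x)
            - A.hcell j (kp k j) (b, S.erase i, x))
            = -(A.gcell r ρ Cb kp j (b, S.erase i, x) + A.hcell j (kp k j) (b, S.erase i, x)) := by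
          abel
        rw [this]
        exact Submodule.neg_mem _ e4
      have hT : (b + es S) j ≤ kp k j := H.le k hk hρ j
      have e5 := A.homotopy j (kp k j) b S x hx hT
      have e6 : Finsupp.single (b, S, x) 1
          - A.d (lin (A.gcell r ρ Cb kp j) (Finsupp.single (b, S, x) 1))
          - lin (A.gcell r ρ Cb kp j) (A.d (Finsupp.single (b, S, x) 1))
          = A.push j (kp k j) (Finsupp.single (b, S, x) 1)
            - (lin (A.gcell r ρ Cb kp j) (A.d (Finsupp.single (b, S, x) 1))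
              + A.h j (kp k j) (A.d (Finsupp.single (b, S, x) 1))) := by
        rw [hl, e1, map_neg]
        have e7 : A.push j (kp k j) (Finsupp.single (b, S, x) 1)
          = A.d (A.h j (kp k j) (Finsupp.single (b, S, x) 1))
            + A.h j (kp k j) (A.d (Finsupp.single (b, S, x) 1)) + Finsupp.single (b, S, x) 1 := by
          rw [e5]; abel
        rw [e7]; abel
      rw [e6]
      apply Submodule.sub_mem _ _ (Submodule.mem_sup_right e2)
      apply Submodule.mem_sup_left
      have hp : A.push j (kp k j) (Finsupp.single (b, S, x) 1) = A.pcell j (kp k j) (b, S, x) :=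
        lin_one _ _
      rw [hp]
      unfold pcell
      simp only
      split_ifs with hjS
      · exact Submodule.zero_mem _
      · apply Finsupp.single_mem_supported
        obtain ⟨u1, u2, u3, u4⟩ := H.update hk hρ hj (le_refl (kp k j))
        have hbj : b j ≤ kp k j := by
          have : (b + es S) j = b j := by simp [es, hjS]
          rw [← this]; exact hT
        have htop : Function.update b j (kp k j) + es S = Function.update k j (kp k j) :=
          update_add_es b hjS _
        refine ⟨⟨A.up_ok (le_update hbj) hx, hS, ?_⟩, ?_⟩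
        · simp only; rw [htop]; exact u2
        · intro i hi hi'
          simp only at hi' ⊢
          rw [htop, u3] at hi'
          rw [htop, u4]
          by_cases hij : i = j
          · subst hij
            exact ⟨hjS, by rw [Function.update_self]⟩
          · rcases mem_insert.1 hi with h8 | hi
            · exact absurd h8 hij
            · obtain ⟨h9, h10⟩ := hJ i hi hi'
              exact ⟨h9, by rw [Function.update_of_ne hij]; exact h10⟩

/-- all pushing steps -/
lemma Red.pushAll (H : A.Crit r ρ Cb kp) {q : ℕ}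
    (h : A.Red r ρ q (A.Pc r ρ Cb kp q Finset.univ)) :
    A.Red r ρ q (A.cells q (fun t => r t = ρ)) := by
  classical
  have key : ∀ J : Finset (Fin N), A.Red r ρ q (A.Pc r ρ Cb kp q J) →
      A.Red r ρ q (A.Pc r ρ Cb kp q ∅) := by
    intro J
    induction J using Finset.induction_on with
    | empty => exact id
    | insert j J hj ih => exact fun h => ih (h.push H J j)
  refine (key _ h).mono ?_
  intro c hc
  exact ⟨hc, by simp⟩

end push

end Sys

end Pool.Agent.FPX
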