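import Pool.Agent.Lib.MP_f973c6_al.IfX.Push

/-! The full complex is acyclic. -/

namespace Pool.Agent.FPX

open Finset

namespace Sys
variable {N : ℕ} {Y : Type*} (A : Sys N Y)

lemma top_update_insert {b k : Fin N → ℤ} {S : Finset (Fin N)} {j : Fin N} {s : ℤ}
    (hb : b + es S ≤ k) (hj : j ∉ S) (hs : s < k j) :
    Function.update b j s + es (insert j S) ≤ k := by
  intro i
  have h := hb i
  by_cases h1 : i = j
  · subst h1
    simp only [Pi.add_apply, es, Function.update_self, mem_insert_self, if_true]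
    omega
  · simp only [Pi.add_apply, es, Function.update_of_ne h1, mem_insert, h1, false_or] at h ⊢
    exact h

lemma top_update {b k : Fin N → ℤ} {S : Finset (Fin N)} {j : Fin N}
    (hb : b + es S ≤ k) (hj : j ∉ S) :
    Function.update b j (k j) + es S ≤ k := by
  intro i
  have h := hb i
  by_cases h1 : i = j
  · subst h1
    simp [es, hj]
  · simp only [Pi.add_apply, es, Function.update_of_ne h1] at h ⊢
    exact h

/-- the homotopy preserves the chains below `k` -/
lemma h_mem (q : ℕ) (k : Fin N → ℤ) (j : Fin N) (y : Cl N Y →₀ ℤ)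
    (hy : y ∈ A.V q (fun t => t ≤ k)) : A.h j (k j) y ∈ A.V (q + 1) (fun t => t ≤ k) := by
  refine lin_mem _ _ _ ?_ y hy
  rintro ⟨b, S, x⟩ ⟨hx, hS, hp⟩
  simp only at hx hS hp
  have hh : A.h j (k j) (Finsupp.single (b, S, x) 1) = A.hcell j (k j) (b, S, x) := lin_one _ _
  rw [hh]
  by_cases hj : j ∈ S
  · simp [hcell, hj]
  · simp only [hcell, hj, if_false]
    apply Submodule.smul_mem
    apply Submodule.sum_mem
    intro s hs
    obtain ⟨hs1, hs2⟩ := mem_Ico.1 hs
    apply A.single_mem
    refine ⟨A.up_ok (le_update hs1) hx, ?_, ?_⟩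
    · simp only; rw [card_insert_of_notMem hj, hS]
    · exact top_update_insert hp hj hs2

/-- the identity for chains below `k` -/
lemma homotopy_chain (q : ℕ) (k : Fin N → ℤ) (j : Fin N) (y : Cl N Y →₀ ℤ)
    (hy : y ∈ A.V q (fun t => t ≤ k)) :
    A.d (A.h j (k j) y) + A.h j (k j) (A.d y) = A.push j (k j) y - y := by
  have h1 := lin_ext (A.d ∘ₗ A.h j (k j) + A.h j (k j) ∘ₗ A.d) (A.push j (k j) - LinearMap.id)
    _ (fun c hc => by
      obtain ⟨b, S, x⟩ := c
      obtain ⟨hx, -, hp⟩ := hc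
      simp only [LinearMap.add_apply, LinearMap.comp_apply, LinearMap.sub_apply,
        LinearMap.id_apply]
      exact A.homotopy j (k j) b S x hx (hp j)) y hy
  simpa using h1

/-- one vertex pushed up -/
lemma vertex_push (k b : Fin N → ℤ) (x : Y) (hx : x ∈ A.ok b) (hb : b ≤ k)
    (P : (Fin N → ℤ) → Prop) (hP : ∀ t, t ≤ k → P t) :
    ∃ z ∈ A.V 1 P, A.d z = Finsupp.single (k, ∅, A.up k x) 1 - Finsupp.single (b, ∅, x) 1 := by
  classical
  have key : ∀ J : Finset (Fin N), ∃ z ∈ A.V 1 (fun t => t ≤ k),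
      A.d z = Finsupp.single ((fun i => if i ∈ J then k i else b i), ∅,
        A.up (fun i => if i ∈ J then k i else b i) x) 1 - Finsupp.single (b, ∅, x) 1 := by
    intro J
    induction J using Finset.induction_on with
    | empty =>
      refine ⟨0, Submodule.zero_mem _, ?_⟩
      simp only [notMem_empty, if_false, map_zero]
      rw [A.up_self hx, sub_self]
    | insert j J hj ih =>
      obtain ⟨z, hz, hdz⟩ := ih
      set bJ : Fin N → ℤ := fun i => if i ∈ J then k i else b i with hbJ
      have hbbJ : b ≤ bJ := by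
        intro i; simp only [hbJ]; split_ifs
        · exact hb i
        · exact le_rfl
      have hbJk : bJ ≤ k := by
        intro i; simp only [hbJ]; split_ifs
        · exact le_rfl
        · exact hb i
      have hxJ := A.up_ok hbbJ hx
      have hcell : ((bJ, ∅, A.up bJ x) : Cl N Y) ∈ A.cells 0 (fun t => t ≤ k) := by
        refine ⟨hxJ, by simp, ?_⟩
        simp only
        intro i
        simpa [es] using hbJk i
      have hmem := A.single_mem hcell
      have h1 := A.homotopy_chain 0 k j _ hmem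
      rw [A.d_zero _ _ hmem, map_zero, add_zero] at h1
      have hp : A.push j (k j) (Finsupp.single (bJ, ∅, A.up bJ x) 1)
          = A.pcell j (k j) (bJ, ∅, A.up bJ x) := lin_one _ _
      have hupd : Function.update bJ j (k j) = fun i => if i ∈ insert j J then k i else b i := by
        funext i
        by_cases h : i = j
        · subst h; simp
        · simp [h, hbJ]
      have hle : bJ ≤ Function.update bJ j (k j) := le_update (hbJk j)
      refine ⟨z + A.h j (k j) (Finsupp.single (bJ, ∅, A.up bJ x) 1),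
        Submodule.add_mem _ hz (A.h_mem 0 k j _ hmem), ?_⟩
      rw [map_add, hdz, h1, hp]
      simp only [pcell, notMem_empty, if_false]
      rw [A.up_up hbbJ hle hx, hupd]
      abel
  obtain ⟨z, hz, hdz⟩ := key Finset.univ
  refine ⟨z, ?_, ?_⟩
  · refine Finsupp.supported_mono ?_ hz
    rintro c ⟨h1, h2, h3⟩
    exact ⟨h1, h2, hP _ h3⟩
  · simpa using hdz

/-- chains below `k` whose cells are pushed up in the directions of `J` -/
def Jcells (q : ℕ) (k : Fin N → ℤ) (J : Finset (Fin N)) : Set (Cl N Y) :=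
  {c | c ∈ A.cells q (fun t => t ≤ k) ∧ ∀ j ∈ J, j ∉ c.2.1}

/-- **(7a), positive degrees**, bounded form: a cycle below `k` is a boundary below `k`. -/
theorem acyclic_below (q : ℕ) (hq : 0 < q) (k : Fin N → ℤ) (y : Cl N Y →₀ ℤ)
    (hy : y ∈ A.V q (fun t => t ≤ k)) (hdy : A.d y = 0) :
    ∃ z ∈ A.V (q + 1) (fun t => t ≤ k), A.d z = y := by
  classical
  have key : ∀ J : Finset (Fin N), ∃ z ∈ A.V (q + 1) (fun t => t ≤ k),
      y - A.d z ∈ Finsupp.supported ℤ ℤ (A.Jcells q k J) := by
    intro J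
    induction J using Finset.induction_on with
    | empty =>
      refine ⟨0, Submodule.zero_mem _, ?_⟩
      rw [map_zero, sub_zero]
      refine Finsupp.supported_mono ?_ hy
      intro c hc
      exact ⟨hc, by simp⟩
    | insert j J hj ih =>
      obtain ⟨z, hz, hyz⟩ := ih
      set w := y - A.d z with hw
      have hwV : w ∈ A.V q (fun t => t ≤ k) :=
        Finsupp.supported_mono (fun c hc => hc.1) hyz
      have hdw : A.d w = 0 := by
        rw [hw, map_sub, hdy, A.d_d (q + 1) _ z hz, sub_zero]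
      have h1 := A.homotopy_chain q k j w hwV
      rw [hdw, map_zero, add_zero] at h1
      refine ⟨z - A.h j (k j) w, Submodule.sub_mem _ hz (A.h_mem q k j w hwV), ?_⟩
      have h2 : y - A.d (z - A.h j (k j) w) = A.push j (k j) w := by
        rw [map_sub, h1, hw]; abel
      rw [h2]
      refine lin_mem _ _ _ ?_ w hyz
      rintro ⟨b, S, x⟩ ⟨⟨hx, hS, hp⟩, hJ⟩
      simp only at hx hS hp hJ
      have hp' : A.push j (k j) (Finsupp.single (b, S, x) 1) = A.pcell j (k j) (b, S, x) :=
        lin_one _ _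
      rw [hp']
      by_cases hjS : j ∈ S
      · simp [pcell, hjS]
      · simp only [pcell, hjS, if_false]
        apply Finsupp.single_mem_supported
        have hbj : b j ≤ k j := by
          have := hp j
          simp only [Pi.add_apply, es, hjS, if_false, add_zero] at this
          exact this
        refine ⟨⟨A.up_ok (le_update hbj) hx, hS, top_update hp hjS⟩, ?_⟩
        intro i hi
        simp only
        rcases mem_insert.1 hi with rfl | hi
        · exact hjS
        · exact hJ i hi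
  obtain ⟨z, hz, hyz⟩ := key Finset.univ
  refine ⟨z, hz, ?_⟩
  have hempty : A.Jcells q k Finset.univ = ∅ := by
    rw [Set.eq_empty_iff_forall_notMem]
    rintro ⟨b, S, x⟩ ⟨⟨-, hS, -⟩, hJ⟩
    simp only at hS hJ
    have : S = ∅ := by
      rw [Finset.eq_empty_iff_forall_notMem]
      intro i
      exact hJ i (mem_univ i)
    rw [this, card_empty] at hS
    omega
  rw [hempty, Finsupp.supported_empty, Submodule.mem_bot] at hyz
  exact (sub_eq_zero.1 hyz).symm

/-- a chain lies below some vertex -/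
lemma exists_top (q : ℕ) (P : (Fin N → ℤ) → Prop) (y : Cl N Y →₀ ℤ) (hy : y ∈ A.V q P) :
    ∃ k : Fin N → ℤ, y ∈ A.V q (fun t => t ≤ k) := by
  classical
  have hy' : (↑y.support : Set (Cl N Y)) ⊆ A.cells q P := hy
  refine ⟨fun i => y.support.sum (fun c => |(c.1 + es c.2.1) i|), ?_⟩
  intro c hc
  obtain ⟨h1, h2, -⟩ := hy' hc
  refine ⟨h1, h2, fun i => ?_⟩
  refine (le_abs_self _).trans ?_
  exact Finset.single_le_sum (f := fun c : Cl N Y => |(c.1 + es c.2.1) i|)
    (fun c _ => abs_nonneg _) hc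

/-- **(7a), positive degrees.** -/
theorem acyclic (q : ℕ) (hq : 0 < q) (y : Cl N Y →₀ ℤ)
    (hy : y ∈ A.V q (fun _ => True)) (hdy : A.d y = 0) :
    ∃ z ∈ A.V (q + 1) (fun _ => True), A.d z = y := by
  obtain ⟨k, hk⟩ := A.exists_top q _ y hy
  obtain ⟨z, hz, hdz⟩ := A.acyclic_below q hq k y hk hdy
  refine ⟨z, Finsupp.supported_mono ?_ hz, hdz⟩
  rintro c ⟨h1, h2, -⟩
  exact ⟨h1, h2, trivial⟩

/-- the augmentation -/
noncomputable def aug : (Cl N Y →₀ ℤ) →ₗ[ℤ] ℤ := lin (fun _ => (1 : ℤ))

/-- **(7a), degree zero.** -/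
theorem acyclic_zero (hm : ∀ b b' x x', x ∈ A.ok b → x' ∈ A.ok b' →
      ∃ k, b ≤ k ∧ b' ≤ k ∧ A.up k x = A.up k x')
    (y : Cl N Y →₀ ℤ) (hy : y ∈ A.V 0 (fun _ => True)) (hdy : aug y = 0) :
    ∃ z ∈ A.V 1 (fun _ => True), A.d z = y := by
  classical
  -- two vertices are homologous
  have two : ∀ c ∈ A.cells 0 (fun _ => True), ∀ c' ∈ A.cells 0 (fun _ => True),
      ∃ z ∈ A.V 1 (fun _ => True), A.d z = Finsupp.single c 1 - Finsupp.single c' 1 := by
    rintro ⟨b, S, x⟩ ⟨hx, hS, -⟩ ⟨b', S', x'⟩ ⟨hx', hS', -⟩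
    simp only [card_eq_zero] at hx hS hx' hS'
    subst hS hS'
    obtain ⟨k, hk, hk', he⟩ := hm b b' x x' hx hx'
    obtain ⟨z, hz, hdz⟩ := A.vertex_push k b x hx hk (fun _ => True) (fun _ _ => trivial)
    obtain ⟨z', hz', hdz'⟩ := A.vertex_push k b' x' hx' hk' (fun _ => True) (fun _ _ => trivial)
    refine ⟨z' - z, Submodule.sub_mem _ hz' hz, ?_⟩
    rw [map_sub, hdz, hdz', he]
    abel
  rcases (A.cells 0 (fun _ => True)).eq_empty_or_nonempty with h0 | ⟨c0, hc0⟩
  · refine ⟨0, Submodule.zero_mem _, ?_⟩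
    rw [V, h0, Finsupp.supported_empty, Submodule.mem_bot] at hy
    rw [hy, map_zero]
  -- every chain is homologous to a multiple of `c0`
  have h1 : ∀ y ∈ A.V 0 (fun _ => True), y - Finsupp.single c0 (aug y) ∈
      (A.V 1 (fun _ => True)).map A.d := by
    intro y hy
    have h2 := lin_mem (LinearMap.id - (Finsupp.lsingle c0) ∘ₗ (aug : (Cl N Y →₀ ℤ) →ₗ[ℤ] ℤ))
      ((A.V 1 (fun _ => True)).map A.d) _ (fun c hc => by
        obtain ⟨z, hz, hdz⟩ := two c hc c0 hc0
        refine ⟨z, hz, ?_⟩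
        rw [hdz]
        have h3 : (aug (Finsupp.single c 1) : ℤ) = 1 := by
          have := lin_one (fun _ : Cl N Y => (1 : ℤ)) c
          exact this
        simp [h3]) y hy
    simpa using h2
  obtain ⟨z, hz, hdz⟩ := h1 y hy
  refine ⟨z, hz, ?_⟩
  rw [hdz, hdy, Finsupp.single_zero, sub_zero]

end Sys

end Pool.Agent.FPX
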